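import Mathlib

set_option autoImplicit false

open MvPolynomial

namespace Pool.Agent.H901R3

noncomputable section

/-- index set of the generators -/
abbrev Idx (κ : Type) := {f : κ →₀ ℕ // f ≠ 0}

/-- evaluate the monomial `y^f` at a point -/
def mon {κ R : Type} [CommSemiring R] (x : κ → R) (f : κ →₀ ℕ) : R :=
  f.prod (fun a e => x a ^ e)

/-- weight of a multi-index of generators -/
def wt {κ : Type} : (Idx κ →₀ ℕ) →+ ℕ := Finsupp.weight (fun f : Idx κ => Finsupp.degree f.1)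

lemma idx_degree_pos {κ : Type} (f : Idx κ) : 1 ≤ Finsupp.degree f.1 := by
  rcases Nat.eq_zero_or_pos (Finsupp.degree f.1) with h | h
  · exact absurd ((Finsupp.degree_eq_zero_iff _).1 h) f.2
  · exact h

lemma wt_single {κ : Type} (f : Idx κ) (n : ℕ) :
    wt (Finsupp.single f n) = n * Finsupp.degree f.1 := by
  simp [wt, Finsupp.weight_apply, Finsupp.sum_single_index]

lemma degree_le_wt {κ : Type} (β : Idx κ →₀ ℕ) : Finsupp.degree β ≤ wt β := by
  rw [wt, Finsupp.weight_apply, Finsupp.degree_apply, Finsupp.sum]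
  apply Finset.sum_le_sum
  intro i _
  have := idx_degree_pos i
  simp only [smul_eq_mul]
  nlinarith

section GF

variable {K : Type} [Field K] {κ R R' : Type} [CommRing R] [Algebra K R] [CommRing R'] [Algebra K R']

/-- homogeneous (in the generators) polynomials of degree `k` whose coefficients are graded by `M` -/
def GF (k : ℕ) (M : ℕ → Submodule K R) (e : ℕ) : Submodule K (MvPolynomial (Idx κ) R) where
  carrier := {F | ∀ β, coeff β F ≠ 0 → Finsupp.degree β = k ∧ ∃ e', e' + wt β = e ∧ coeff β F ∈ M e'}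
  zero_mem' := by intro β h; simp at h
  add_mem' := by
    intro F G hF hG β h
    rw [coeff_add] at h
    by_cases h1 : coeff β F = 0
    · by_cases h2 : coeff β G = 0
      · simp [h1, h2] at h
      · rw [coeff_add, h1, zero_add]; exact hG β h2
    · by_cases h2 : coeff β G = 0
      · rw [coeff_add, h2, add_zero]; exact hF β h1
      · obtain ⟨a, e1, he1, m1⟩ := hF β h1
        obtain ⟨b, e2, he2, m2⟩ := hG β h2
        have : e1 = e2 := by omega
        subst this
        refine ⟨a, e1, he1, ?_⟩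
        rw [coeff_add]
        exact (M e1).add_mem m1 m2
  smul_mem' := by
    intro c F hF β h
    have h1 : coeff β F ≠ 0 := by
      intro h0; apply h
      rw [coeff_smul, h0, smul_zero]
    obtain ⟨a, e1, he1, m1⟩ := hF β h1
    refine ⟨a, e1, he1, ?_⟩
    rw [coeff_smul]
    exact (M e1).smul_mem c m1

lemma mem_GF {k : ℕ} {M : ℕ → Submodule K R} {e : ℕ} {F : MvPolynomial (Idx κ) R} :
    F ∈ GF k M e ↔ ∀ β, coeff β F ≠ 0 →
      Finsupp.degree β = k ∧ ∃ e', e' + wt β = e ∧ coeff β F ∈ M e' := Iff.rfl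

lemma monomial_mem_GF {k : ℕ} {M : ℕ → Submodule K R} {e e' : ℕ} {β : Idx κ →₀ ℕ} {c : R}
    (h1 : Finsupp.degree β = k) (h2 : e' + wt β = e) (hc : c ∈ M e') :
    monomial β c ∈ GF k M e := by
  classical
  intro γ hγ
  rw [coeff_monomial] at hγ ⊢
  by_cases h : β = γ
  · subst h; rw [if_pos rfl]; exact ⟨h1, e', h2, hc⟩
  · rw [if_neg h] at hγ; exact absurd rfl hγ

/-- induction principle -/
lemma GF_induction {k : ℕ} {M : ℕ → Submodule K R} {e : ℕ} {C : MvPolynomial (Idx κ) R → Prop}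
    (h0 : C 0) (hadd : ∀ F G, F ∈ GF k M e → G ∈ GF k M e → C F → C G → C (F + G))
    (hmon : ∀ β c e', Finsupp.degree β = k → e' + wt β = e → c ∈ M e' → C (monomial β c))
    {F : MvPolynomial (Idx κ) R} (hF : F ∈ GF k M e) : C F := by
  classical
  have key : ∀ s : Finset (Idx κ →₀ ℕ), s ⊆ F.support →
      (∑ β ∈ s, monomial β (coeff β F)) ∈ GF k M e ∧ C (∑ β ∈ s, monomial β (coeff β F)) := by
    intro s
    induction s using Finset.induction_on with
    | empty => intro _; simp only [Finset.sum_empty]; exact ⟨Submodule.zero_mem _, h0⟩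
    | insert a s ha ih =>
      intro hs
      have hs' : s ⊆ F.support := fun x hx => hs (Finset.mem_insert_of_mem hx)
      obtain ⟨i1, i2⟩ := ih hs'
      have hne : coeff a F ≠ 0 := by
        have := hs (Finset.mem_insert_self a s)
        exact mem_support_iff.1 this
      obtain ⟨d1, e', d2, d3⟩ := hF a hne
      have m1 : monomial a (coeff a F) ∈ GF k M e := monomial_mem_GF d1 d2 d3
      rw [Finset.sum_insert ha]
      exact ⟨Submodule.add_mem _ m1 i1, hadd _ _ m1 i1 (hmon _ _ _ d1 d2 d3) i2⟩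
  have := (key F.support (Finset.Subset.refl _)).2
  rwa [← F.as_sum] at this

lemma GF_map {k : ℕ} {M : ℕ → Submodule K R} {M' : ℕ → Submodule K R'} {e : ℕ}
    (φ : R →+* R') (hφ : ∀ d, ∀ v ∈ M d, φ v ∈ M' d) {F : MvPolynomial (Idx κ) R}
    (hF : F ∈ GF k M e) : MvPolynomial.map φ F ∈ GF k M' e := by
  intro β h
  rw [coeff_map] at h ⊢
  have h1 : coeff β F ≠ 0 := by
    intro h0; apply h; rw [h0, map_zero]
  obtain ⟨a, e1, he1, m1⟩ := hF β h1
  exact ⟨a, e1, he1, hφ _ _ m1⟩

lemma GF_mono {k : ℕ} {M M' : ℕ → Submodule K R} {e : ℕ} (h : ∀ d, M d ≤ M' d)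
    {F : MvPolynomial (Idx κ) R} (hF : F ∈ GF k M e) : F ∈ GF k M' e := by
  intro β hβ
  obtain ⟨a, e1, he1, m1⟩ := hF β hβ
  exact ⟨a, e1, he1, h _ m1⟩

/-- elements represented by `GF k M e` -/
def Rep (p : Idx κ → R) (k : ℕ) (M : ℕ → Submodule K R) (e : ℕ) (v : R) : Prop :=
  ∃ F ∈ GF k M e, eval p F = v

lemma Rep.add {p : Idx κ → R} {k : ℕ} {M : ℕ → Submodule K R} {e : ℕ} {v w : R}
    (hv : Rep p k M e v) (hw : Rep p k M e w) : Rep p k M e (v + w) := by
  obtain ⟨F, hF, rfl⟩ := hv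
  obtain ⟨G, hG, rfl⟩ := hw
  exact ⟨F + G, Submodule.add_mem _ hF hG, by simp⟩

lemma Rep.zero {p : Idx κ → R} {k : ℕ} {M : ℕ → Submodule K R} {e : ℕ} :
    Rep p k M e 0 := ⟨0, Submodule.zero_mem _, by simp⟩

lemma Rep.map {p : Idx κ → R} {k : ℕ} {M : ℕ → Submodule K R} {M' : ℕ → Submodule K R'} {e : ℕ}
    (φ : R →+* R') (hφ : ∀ d, ∀ v ∈ M d, φ v ∈ M' d) {v : R} (hv : Rep p k M e v) :
    Rep (fun f => φ (p f)) k M' e (φ v) := by
  obtain ⟨F, hF, rfl⟩ := hv
  refine ⟨MvPolynomial.map φ F, GF_map φ hφ hF, ?_⟩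
  rw [eval_map]
  have : φ (eval p F) = eval₂ φ (φ ∘ p) F := by
    rw [← eval₂_id F, eval₂_comp_left, RingHom.comp_id]
  rw [this]; rfl

lemma Rep.mono {p : Idx κ → R} {k : ℕ} {M M' : ℕ → Submodule K R} {e : ℕ} (h : ∀ d, M d ≤ M' d)
    {v : R} (hv : Rep p k M e v) : Rep p k M' e v := by
  obtain ⟨F, hF, rfl⟩ := hv
  exact ⟨F, GF_mono h hF, rfl⟩

lemma Rep.mem_ideal {p : Idx κ → R} {k : ℕ} {M : ℕ → Submodule K R} {e : ℕ}
    {v : R} (hv : Rep p (k+1) M e v) : v ∈ Ideal.span (Set.range p) := by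
  classical
  obtain ⟨F, hF, rfl⟩ := hv
  refine GF_induction (C := fun F => eval p F ∈ Ideal.span (Set.range p)) ?_ ?_ ?_ hF
  · simp
  · intro F G _ _ h1 h2; rw [map_add]; exact Ideal.add_mem _ h1 h2
  · intro β c e' hd _ _
    have hβ : β ≠ 0 := by rintro rfl; simp at hd
    obtain ⟨f, hf⟩ := Finsupp.support_nonempty_iff.2 hβ
    rw [eval_monomial]
    apply Ideal.mul_mem_left
    rw [Finsupp.prod, ← Finset.mul_prod_erase _ _ hf]
    apply Ideal.mul_mem_right
    exact Ideal.pow_mem_of_mem _ (Ideal.subset_span (Set.mem_range_self f)) _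
      (Nat.pos_of_ne_zero (Finsupp.mem_support_iff.1 hf))

/-- multiplying a graded family by the generators -/
lemma Rep.lower {p : Idx κ → R} {k : ℕ} {M M' : ℕ → Submodule K R} {e : ℕ}
    (hM : ∀ (f : Idx κ) d, ∀ v ∈ M d, v * p f ∈ M' (d + Finsupp.degree f.1))
    {F : MvPolynomial (Idx κ) R} (hF : F ∈ GF (k+1) M e) :
    ∃ G ∈ GF k M' e, eval p G = eval p F ∧ ∀ β, coeff β G ∈ Ideal.span (Set.range p) := by
  refine GF_induction (C := fun F => ∃ G ∈ GF k M' e, eval p G = eval p F ∧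
    ∀ β, coeff β G ∈ Ideal.span (Set.range p)) ?_ ?_ ?_ hF
  · exact ⟨0, Submodule.zero_mem _, rfl, by simp⟩
  · rintro F G _ _ ⟨F1, a1, a2, a3⟩ ⟨G1, b1, b2, b3⟩
    refine ⟨F1 + G1, Submodule.add_mem _ a1 b1, by rw [map_add, map_add, a2, b2], ?_⟩
    intro β; rw [coeff_add]; exact Ideal.add_mem _ (a3 β) (b3 β)
  · intro β c e' hd hw hc
    have hβ : β ≠ 0 := by rintro rfl; simp at hd
    obtain ⟨f, hf⟩ := Finsupp.support_nonempty_iff.2 hβ
    have hle : Finsupp.single f 1 ≤ β := by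
      rw [Finsupp.single_le_iff]
      exact Nat.pos_of_ne_zero (Finsupp.mem_support_iff.1 hf)
    obtain ⟨γ, hγ⟩ : ∃ γ, β = γ + Finsupp.single f 1 := ⟨β - Finsupp.single f 1, by
      rw [tsub_add_cancel_of_le hle]⟩
    subst hγ
    refine ⟨monomial γ (c * p f), ?_, ?_, ?_⟩
    · refine monomial_mem_GF (e' := e' + Finsupp.degree f.1) ?_ ?_ (hM f _ c hc)
      · rw [map_add, Finsupp.degree_single] at hd; omega
      · rw [map_add, wt_single] at hw; omega
    · rw [eval_monomial, eval_monomial, Finsupp.prod_add_index' (by simp) (by intros; rw [pow_add]),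
        Finsupp.prod_single_index (by simp)]
      ring
    · intro δ
      classical
      rw [coeff_monomial]
      split
      · exact Ideal.mul_mem_left _ _ (Ideal.subset_span ⟨f, rfl⟩)
      · exact Ideal.zero_mem _

/-- iterated lowering -/
lemma Rep.lowerTo {p : Idx κ → R} {k l : ℕ} (hl : k < l) {M : ℕ → Submodule K R} {e : ℕ}
    (hM : ∀ (f : Idx κ) d, ∀ v ∈ M d, v * p f ∈ M (d + Finsupp.degree f.1))
    {F : MvPolynomial (Idx κ) R} (hF : F ∈ GF l M e) :
    ∃ G ∈ GF k M e, eval p G = eval p F ∧ ∀ β, coeff β G ∈ Ideal.span (Set.range p) := by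
  obtain ⟨t, rfl⟩ : ∃ t, l = k + t + 1 := ⟨l - k - 1, by omega⟩
  clear hl
  induction t generalizing F with
  | zero => exact Rep.lower hM hF
  | succ t ih =>
    obtain ⟨G, hG, h1, _⟩ := Rep.lower (k := k + t + 1) hM hF
    obtain ⟨G', hG', h2, h3⟩ := ih hG
    exact ⟨G', hG', h2.trans h1, h3⟩

end GF

section Chain

variable {K : Type} [Field K] {R : Type} [CommRing R] [Algebra K R]

lemma chainK {ι : Type} (D : Derivation K R R) (P : ι → R) (Φ : Finset ι) (G : MvPolynomial ι K)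
    (hG : G ∈ supported K (Φ : Set ι)) :
    D (aeval P G) = ∑ f ∈ Φ, aeval P (pderiv f G) * D (P f) := by
  classical
  unfold supported at hG
  induction hG using Algebra.adjoin_induction with
  | mem x hx =>
    obtain ⟨i, hi, rfl⟩ := hx
    rw [aeval_X]
    rw [Finset.sum_eq_single i]
    · simp
    · intro b _ hb
      rw [pderiv_X_of_ne (Ne.symm hb)]; simp
    · intro h; exact absurd hi h
  | algebraMap r =>
    simp [algebraMap_eq]
  | add x y _ _ hx hy =>
    rw [map_add, map_add, hx, hy, ← Finset.sum_add_distrib]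
    apply Finset.sum_congr rfl
    intro f _
    rw [map_add, map_add]; ring
  | mul x y _ _ hx hy =>
    rw [map_mul, Derivation.leibniz, hx, hy, Finset.smul_sum, Finset.smul_sum,
      ← Finset.sum_add_distrib]
    apply Finset.sum_congr rfl
    intro f _
    rw [pderiv_mul, map_add, map_mul, map_mul]
    simp only [smul_eq_mul]; ring

lemma chain_monomial {ι : Type} (D : Derivation K R R) (P : ι → R) (Φ : Finset ι)
    (β : ι →₀ ℕ) (hβ : β.support ⊆ Φ) (c : R) :
    D (eval P (monomial β c)) = eval P (monomial β (D c))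
      + ∑ f ∈ Φ, eval P (pderiv f (monomial β c)) * D (P f) := by
  have h1 : (monomial β (1 : K) : MvPolynomial ι K) ∈ supported K (Φ : Set ι) := by
    rw [mem_supported]
    intro i hi
    have := vars_monomial (R := K) (s := β) (r := 1) one_ne_zero
    have hi' : i ∈ (monomial β (1 : K)).vars := hi
    rw [this] at hi'
    exact hβ hi'
  have h2 := chainK D P Φ (monomial β (1 : K)) h1
  have h3 : ∀ γ : ι →₀ ℕ, ∀ c' : R, ∀ r : K, eval P (monomial γ (c' * algebraMap K R r)) =
      c' * aeval P (monomial γ r) := by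
    intro γ c' r
    rw [eval_monomial, aeval_monomial, mul_assoc]
  have h4 := h3 β c 1
  rw [map_one, mul_one] at h4
  rw [h4, Derivation.leibniz, h2]
  have h5 := h3 β (D c) 1
  rw [map_one, mul_one] at h5
  rw [h5, Finset.smul_sum, smul_eq_mul, add_comm, mul_comm (aeval P (monomial β (1:K)))]
  congr 1
  apply Finset.sum_congr rfl
  intro f _
  rw [pderiv_monomial, pderiv_monomial]
  have h6 := h3 (β - Finsupp.single f 1) c (β f : K)
  rw [map_natCast] at h6
  rw [h6, one_mul, smul_eq_mul, mul_assoc]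

lemma chain {ι : Type} (D : Derivation K R R) (P : ι → R) (F : MvPolynomial ι R) :
    D (eval P F) = eval P (∑ β ∈ F.support, monomial β (D (coeff β F)))
      + ∑ f ∈ F.vars, eval P (pderiv f F) * D (P f) := by
  classical
  have h : ∀ β ∈ F.support, β.support ⊆ F.vars := by
    intro β hβ i hi
    exact (mem_vars_iff_mem_support i).2 ⟨β, hβ, hi⟩
  conv_lhs => rw [F.as_sum]
  rw [map_sum, map_sum, map_sum]
  rw [Finset.sum_congr rfl (fun β hβ => chain_monomial D P F.vars β (h β hβ) (coeff β F))]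
  rw [Finset.sum_add_distrib]
  congr 1
  rw [Finset.sum_comm]
  apply Finset.sum_congr rfl
  intro f _
  rw [← Finset.sum_mul, ← map_sum, ← map_sum, ← F.as_sum]

lemma cD_mem {κ : Type} {k : ℕ} {M : ℕ → Submodule K R} {e : ℕ} (D : Derivation K R R)
    (hD : ∀ d, ∀ v ∈ M (d+1), D v ∈ M d) (hD0 : ∀ v ∈ M 0, D v = 0)
    {F : MvPolynomial (Idx κ) R} (hF : F ∈ GF k M (e+1)) :
    (∑ β ∈ F.support, monomial β (D (coeff β F))) ∈ GF k M e := by
  classical
  apply Submodule.sum_mem
  intro β hβ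
  obtain ⟨h1, e', h2, h3⟩ := hF β (mem_support_iff.1 hβ)
  cases e' with
  | zero => rw [hD0 _ h3, map_zero]; exact Submodule.zero_mem _
  | succ e' => exact monomial_mem_GF h1 (e' := e') (by omega) (hD _ _ h3)

lemma pderiv_mem {κ : Type} {k : ℕ} {M : ℕ → Submodule K R} {e : ℕ} (f : Idx κ) (r : R)
    (hr : ∀ d, ∀ v ∈ M d, r * v ∈ M (d + (Finsupp.degree f.1 - 1)))
    {F : MvPolynomial (Idx κ) R} (hF : F ∈ GF (k+1) M (e+1)) :
    C r * pderiv f F ∈ GF k M e := by
  classical
  intro β hβ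
  rw [coeff_C_mul, coeff_pderiv] at hβ ⊢
  have h1 : coeff (β + Finsupp.single f 1) F ≠ 0 := by
    intro h; apply hβ; rw [h]; simp
  obtain ⟨h2, e', h3, h4⟩ := hF _ h1
  have hf := idx_degree_pos f
  rw [map_add, Finsupp.degree_single] at h2
  rw [map_add, wt_single] at h3
  refine ⟨by omega, e' + (Finsupp.degree f.1 - 1), by omega, ?_⟩
  have h5 := hr _ _ h4
  have h6 : r * (coeff (β + Finsupp.single f 1) F * ((β f : R) + 1)) =
      ((β f : K) + 1) • (r * coeff (β + Finsupp.single f 1) F) := by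
    rw [Algebra.smul_def]
    simp only [map_add, map_natCast, map_one]; ring
  rw [h6]; exact (M _).smul_mem _ h5

end Chain

end

end Pool.Agent.H901R3
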