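import Pool.Agent.H901R3.Coinv1

set_option autoImplicit false

open MvPolynomial

namespace Pool.Agent.H901R3

noncomputable section

section pw

variable {K : Type} [Field K] {κ J : Type} {R R' : Type} [CommRing R] [CommRing R']

lemma map_mon (φ : R →+* R') (x : κ → R) (f : κ →₀ ℕ) : φ (mon x f) = mon (fun a => φ (x a)) f := by
  unfold mon
  rw [Finsupp.prod, Finsupp.prod, map_prod]
  simp only [map_pow]

/-- weighted power sum -/
def pw [Fintype J] (m : J → ℕ) (x : J → κ → R) (f : Idx κ) : R := ∑ j, (m j : R) * mon (x j) f.1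

lemma map_pw [Fintype J] (φ : R →+* R') (m : J → ℕ) (x : J → κ → R) (f : Idx κ) :
    φ (pw m x f) = pw m (fun j a => φ (x j a)) f := by
  unfold pw
  rw [map_sum]
  apply Finset.sum_congr rfl
  intro j _
  rw [map_mul, map_natCast, map_mon]

end pw

section main

variable (K : Type) [Field K] (κ J : Type)

/-- the coordinates -/
abbrev RJ := MvPolynomial (κ × J) K

/-- homogeneous pieces -/
abbrev Hom (d : ℕ) : Submodule K (RJ K κ J) := homogeneousSubmodule (κ × J) K d

variable {K κ J}

/-- the coordinates of the points -/
abbrev xx (j : J) (a : κ) : RJ K κ J := X (a, j)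

/-- the generators -/
abbrev PJ [Fintype J] (m : J → ℕ) : Idx κ → RJ K κ J := pw m xx

abbrev IJ [Fintype J] (K κ : Type) [Field K] (m : J → ℕ) : Ideal (RJ K κ J) :=
  Ideal.span (Set.range (PJ (K := K) (κ := κ) m))

lemma mon_hom {σ τ : Type} {x : σ → MvPolynomial τ K} (hx : ∀ a, (x a).IsHomogeneous 1)
    (f : σ →₀ ℕ) : (mon x f).IsHomogeneous (Finsupp.degree f) := by
  unfold mon
  rw [Finsupp.prod, Finsupp.degree_apply]
  apply IsHomogeneous.prod
  intro i _
  have := (hx i).pow (f i)
  rwa [one_mul] at this

lemma pw_hom {σ τ : Type} [Fintype J] (m : J → ℕ) {x : J → σ → MvPolynomial τ K}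
    (hx : ∀ j a, (x j a).IsHomogeneous 1)
    (f : Idx σ) : (pw m x f).IsHomogeneous (Finsupp.degree f.1) := by
  unfold pw
  apply IsHomogeneous.sum
  intro j _
  have := (mon_hom (hx j) f.1).C_mul (m j : K)
  rwa [map_natCast] at this

lemma PJ_hom [Fintype J] (m : J → ℕ) (f : Idx κ) :
    (PJ (K := K) m f).IsHomogeneous (Finsupp.degree f.1) :=
  pw_hom m (fun _ _ => isHomogeneous_X _ _) f

variable (K κ) in
/-- quasi-regularity up to degree `card J` -/
def QR [Fintype J] (m : J → ℕ) : Prop :=
  ∀ e ≤ Fintype.card J, ∀ k, ∀ F : MvPolynomial (Idx κ) (RJ K κ J), F ∈ GF k (Hom K κ J) e →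
    eval (PJ m) F = 0 → ∀ β, coeff β F ∈ IJ K κ m

variable (K κ) in
/-- injectivity of evaluation at the points in degrees `< card J` -/
def DD [Fintype J] (m : J → ℕ) : Prop :=
  ∀ e < Fintype.card J, ∀ G : MvPolynomial κ (RJ K κ J),
    (∀ γ, coeff γ G ≠ 0 → ∃ e', e' + Finsupp.degree γ = e ∧ coeff γ G ∈ Hom K κ J e') →
    (∀ j, eval (xx j) G ∈ IJ K κ m) → ∀ γ, coeff γ G ∈ IJ K κ m

lemma mon_xx (j : J) (f : κ →₀ ℕ) (r : K) :
    C r * mon (xx (K := K) j) f = rename (fun a => (a, j)) (monomial f r) := by
  rw [rename_eq_aeval, aeval_monomial]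
  rfl

lemma pderiv_mon_self [DecidableEq J] (a : κ) (j : J) (f : κ →₀ ℕ) :
    pderiv (a, j) (mon (xx (K := K) j) f) =
      eval (xx j) (pderiv a (monomial f (1 : RJ K κ J))) := by
  have h := mon_xx (K := K) j f 1
  rw [C_1, one_mul] at h
  rw [h]
  have hinj : Function.Injective (fun a : κ => (a, j)) := by
    intro a b h; simpa using h
  rw [pderiv_rename hinj a, pderiv_monomial, pderiv_monomial, ← mon_xx, eval_monomial]
  simp [mon]

lemma pderiv_mon_ne [DecidableEq J] (a : κ) (i j : J) (hij : i ≠ j) (f : κ →₀ ℕ) :
    pderiv (a, j) (mon (xx (K := K) i) f) = 0 := by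
  classical
  have h := mon_xx (K := K) i f 1
  rw [C_1, one_mul] at h
  rw [h]
  apply pderiv_eq_zero_of_notMem_vars
  intro hv
  have := vars_rename (fun a : κ => (a, i)) (monomial f (1 : K)) hv
  rw [Finset.mem_image] at this
  obtain ⟨b, _, hb⟩ := this
  exact hij (by simpa using (congrArg Prod.snd hb))

lemma pderiv_PJ [Fintype J] (m : J → ℕ) (a : κ) (j : J) (f : Idx κ) :
    pderiv (a, j) (PJ (K := K) m f) =
      (m j : RJ K κ J) * eval (xx j) (pderiv a (monomial f.1 (1 : RJ K κ J))) := by
  classical
  unfold PJ pw
  rw [map_sum, Finset.sum_eq_single j]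
  · rw [Derivation.leibniz, ← pderiv_mon_self]
    simp
  · intro i _ hij
    rw [Derivation.leibniz, pderiv_mon_ne a i j hij]
    simp
  · intro h; exact absurd (Finset.mem_univ j) h

lemma mul_PJ_mem [Fintype J] (m : J → ℕ) (f : Idx κ) (d : ℕ) (v : RJ K κ J) (hv : v ∈ Hom K κ J d) :
    v * PJ m f ∈ Hom K κ J (d + Finsupp.degree f.1) :=
  IsHomogeneous.mul hv (PJ_hom m f)

lemma pderiv_hom {σ : Type} (i : σ) {d : ℕ} {v : MvPolynomial σ K} (hv : v.IsHomogeneous (d+1)) :
    (pderiv i v).IsHomogeneous d := by
  intro γ hγ
  rw [coeff_pderiv] at hγ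
  have h1 : coeff (γ + Finsupp.single i 1) v ≠ 0 := by
    intro h; apply hγ; rw [h]; simp
  have h2 := hv h1
  rw [map_add] at h2
  have : (Finsupp.weight (1 : σ → ℕ)) (Finsupp.single i 1) = 1 := by
    simp [Finsupp.weight_apply]
  rw [this] at h2
  exact Nat.succ.inj h2

lemma pderiv_hom0 {σ : Type} (i : σ) {v : MvPolynomial σ K} (hv : v.IsHomogeneous 0) :
    pderiv i v = 0 := by
  have := (totalDegree_zero_iff_isHomogeneous σ).2 hv
  rw [totalDegree_eq_zero_iff_eq_C] at this
  rw [this, pderiv_C]

variable [CharZero K]

lemma mem_of_cast_mul {I : Ideal (RJ K κ J)} {n : ℕ} (hn : n ≠ 0) {v : RJ K κ J}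
    (h : (n : RJ K κ J) * v ∈ I) : v ∈ I := by
  have h1 : v = C ((n : K)⁻¹) * ((n : RJ K κ J) * v) := by
    rw [← mul_assoc, ← map_natCast (C : K →+* RJ K κ J) n, ← map_mul,
      inv_mul_cancel₀ (Nat.cast_ne_zero.2 hn), map_one, one_mul]
  rw [h1]
  exact Ideal.mul_mem_left _ _ h

theorem QR_of_DD [Fintype J] (m : J → ℕ) (hm : ∀ j, 0 < m j) (hD : DD K κ m) : QR K κ m := by
  classical
  intro e
  induction e with
  | zero =>
    intro he k F hF h0 β
    by_contra hne
    have hne' : coeff β F ≠ 0 := by
      intro h; apply hne; rw [h]; exact Ideal.zero_mem _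
    obtain ⟨h1, e', h2, h3⟩ := hF β hne'
    have h4 := degree_le_wt β
    have h5 : β = 0 := by
      rw [← Finsupp.degree_eq_zero_iff]; omega
    subst h5
    have h6 : F = C (coeff 0 F) := by
      refine MvPolynomial.ext _ _ (fun γ => ?_)
      rw [coeff_C]
      by_cases hγ : 0 = γ
      · rw [if_pos hγ, hγ]
      · rw [if_neg hγ]
        by_contra h7
        obtain ⟨_, e'', h8, _⟩ := hF γ h7
        have := degree_le_wt γ
        apply hγ
        symm
        rw [← Finsupp.degree_eq_zero_iff]; omega
    rw [h6, eval_C] at h0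
    exact hne' h0
  | succ e ih =>
    intro he k F hF h0
    cases k with
    | zero =>
      intro β
      by_contra hne
      have hne' : coeff β F ≠ 0 := by
        intro h; apply hne; rw [h]; exact Ideal.zero_mem _
      obtain ⟨h1, e', h2, h3⟩ := hF β hne'
      have h5 : β = 0 := by
        rw [← Finsupp.degree_eq_zero_iff]; omega
      subst h5
      have h6 : F = C (coeff 0 F) := by
        refine MvPolynomial.ext _ _ (fun γ => ?_)
        rw [coeff_C]
        by_cases hγ : 0 = γ
        · rw [if_pos hγ, hγ]
        · rw [if_neg hγ]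
          by_contra h7
          obtain ⟨h8, _⟩ := hF γ h7
          apply hγ
          symm
          rw [← Finsupp.degree_eq_zero_iff]; omega
      rw [h6, eval_C] at h0
      exact hne' h0
    | succ k =>
      have ih' := ih (by omega)
      have key : ∀ β' : Idx κ →₀ ℕ, ∀ f : Idx κ, coeff β' (pderiv f F) ∈ IJ K κ m := by
        intro β' f₀
        -- graded information
        have hgr : ∀ f : Idx κ, coeff β' (pderiv f F) ≠ 0 →
            ∃ e', e' + wt β' + Finsupp.degree f.1 = e + 1 ∧ coeff β' (pderiv f F) ∈ Hom K κ J e' := by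
          intro f hf
          rw [coeff_pderiv] at hf ⊢
          have h1 : coeff (β' + Finsupp.single f 1) F ≠ 0 := by
            intro h; apply hf; rw [h]; simp
          obtain ⟨_, e', h3, h4⟩ := hF _ h1
          rw [map_add, wt_single] at h3
          refine ⟨e', by omega, ?_⟩
          have h5 : coeff (β' + Finsupp.single f 1) F * ((β' f : RJ K κ J) + 1) =
              ((β' f : K) + 1) • coeff (β' + Finsupp.single f 1) F := by
            rw [Algebra.smul_def]
            simp only [map_add, map_natCast, map_one]; ring
          rw [h5]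
          exact Submodule.smul_mem _ _ h4
        by_cases hz : coeff β' (pderiv f₀ F) = 0
        · rw [hz]; exact Ideal.zero_mem _
        obtain ⟨e₀, he₀, _⟩ := hgr f₀ hz
        have hf₀ := idx_degree_pos f₀
        obtain ⟨eg, heg⟩ : ∃ eg, eg + wt β' = e := ⟨e - wt β', by omega⟩
        -- the polynomial z
        set z : MvPolynomial κ (RJ K κ J) :=
          ∑ f ∈ F.vars, monomial f.1 (coeff β' (pderiv f F)) with hzdef
        have hzcoeff : ∀ f : Idx κ, coeff f.1 z = coeff β' (pderiv f F) := by
          intro f
          rw [hzdef, coeff_sum]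
          by_cases hfv : f ∈ F.vars
          · rw [Finset.sum_eq_single f]
            · rw [coeff_monomial, if_pos rfl]
            · intro g _ hg
              rw [coeff_monomial, if_neg]
              intro h; exact hg (Subtype.ext h)
            · intro h; exact absurd hfv h
          · rw [pderiv_eq_zero_of_notMem_vars hfv, coeff_zero]
            apply Finset.sum_eq_zero
            intro g hg
            rw [coeff_monomial, if_neg]
            intro h
            exact hfv (by rw [← Subtype.ext h]; exact hg)
        have hz0 : coeff 0 z = 0 := by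
          rw [hzdef, coeff_sum]
          apply Finset.sum_eq_zero
          intro g _
          rw [coeff_monomial, if_neg g.2]
        -- evaluate
        have hev : ∀ a j, eval (xx j) (pderiv a z) ∈ IJ K κ m := by
          intro a j
          have hch := chain (pderiv (a, j)) (PJ m) F
          rw [h0, map_zero] at hch
          have hcD := cD_mem (k := k + 1) (e := e) (pderiv (a, j))
            (fun d v hv => pderiv_hom (a, j) hv) (fun v hv => pderiv_hom0 (a, j) hv) hF
          obtain ⟨G1, hG1, hG1e, hG1c⟩ := Rep.lower (p := PJ (K := K) m) (M' := Hom K κ J)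
            (fun f d v hv => mul_PJ_mem m f d v hv) hcD
          set F2 : MvPolynomial (Idx κ) (RJ K κ J) :=
            ∑ f ∈ F.vars, C (pderiv (a, j) (PJ m f)) * pderiv f F with hF2
          have hF2m : F2 ∈ GF k (Hom K κ J) e := by
            rw [hF2]
            apply Submodule.sum_mem
            intro f _
            apply pderiv_mem f _ _ hF
            intro d v hv
            have h1 : (pderiv (a, j) (PJ (K := K) m f)).IsHomogeneous (Finsupp.degree f.1 - 1) := by
              apply pderiv_hom
              have := idx_degree_pos f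
              rw [Nat.sub_add_cancel this]
              exact PJ_hom m f
            have h2 := h1.mul hv
            rw [add_comm] at h2
            exact h2
          have hsum : eval (PJ m) (G1 + F2) = 0 := by
            have hF2e : eval (PJ m) F2 =
                ∑ f ∈ F.vars, eval (PJ m) (pderiv f F) * pderiv (a, j) (PJ m f) := by
              rw [hF2, map_sum]
              apply Finset.sum_congr rfl
              intro f _
              rw [map_mul, eval_C, mul_comm]
            rw [map_add, hG1e, hF2e, ← hch]
          have h3 := ih' k (G1 + F2) (Submodule.add_mem _ hG1 hF2m) hsum β'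
          rw [coeff_add] at h3
          have h4 : coeff β' F2 ∈ IJ K κ m := by
            have := Ideal.sub_mem _ h3 (hG1c β')
            simpa using this
          apply mem_of_cast_mul (n := m j) (hm j).ne'
          have h5 : (m j : RJ K κ J) * eval (xx j) (pderiv a z) = coeff β' F2 := by
            rw [hF2, coeff_sum, hzdef, map_sum, map_sum, Finset.mul_sum]
            apply Finset.sum_congr rfl
            intro f _
            rw [coeff_C_mul, pderiv_PJ]
            have h6 : (monomial f.1 (coeff β' (pderiv f F)) : MvPolynomial κ (RJ K κ J)) =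
                C (coeff β' (pderiv f F)) * monomial f.1 1 := by
              rw [C_mul_monomial, mul_one]
            rw [h6, pderiv_C_mul, map_mul, eval_C]
            ring
          rw [h5]; exact h4
        -- apply DD
        have hDD : ∀ a γ, coeff γ (pderiv a z) ∈ IJ K κ m := by
          intro a
          apply hD eg (by omega) _ _ (hev a)
          intro γ hγ
          rw [coeff_pderiv] at hγ ⊢
          have h1 : coeff (γ + Finsupp.single a 1) z ≠ 0 := by
            intro h; apply hγ; rw [h]; simp
          have hne : γ + Finsupp.single a 1 ≠ 0 := by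
            intro h
            have := congrArg Finsupp.degree h
            rw [map_add, Finsupp.degree_single] at this
            simp at this
          have h2 := hzcoeff ⟨_, hne⟩
          rw [h2] at h1 ⊢
          obtain ⟨e', h3, h4⟩ := hgr _ h1
          simp only [map_add, Finsupp.degree_single] at h3
          refine ⟨e', by omega, ?_⟩
          have h5 : coeff β' (pderiv (⟨γ + Finsupp.single a 1, hne⟩ : Idx κ) F) *
              ((γ a : RJ K κ J) + 1) =
              ((γ a : K) + 1) • coeff β' (pderiv (⟨γ + Finsupp.single a 1, hne⟩ : Idx κ) F) := by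
            rw [Algebra.smul_def]
            simp only [map_add, map_natCast, map_one]; ring
          rw [h5]
          exact Submodule.smul_mem _ _ h4
        -- conclude
        obtain ⟨a, ha⟩ : ∃ a, f₀.1 a ≠ 0 := by
          by_contra hc
          push Not at hc
          exact f₀.2 (Finsupp.ext hc)
        have hle : Finsupp.single a 1 ≤ f₀.1 := by
          rw [Finsupp.single_le_iff]; omega
        have h6 := hDD a (f₀.1 - Finsupp.single a 1)
        rw [coeff_pderiv, tsub_add_cancel_of_le hle, hzcoeff] at h6
        apply mem_of_cast_mul (n := (f₀.1 - Finsupp.single a 1 : κ →₀ ℕ) a + 1) (Nat.succ_ne_zero _)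
        rw [mul_comm]
        push_cast
        exact h6
      intro β
      by_cases hβ0 : coeff β F = 0
      · rw [hβ0]; exact Ideal.zero_mem _
      obtain ⟨h1, _⟩ := hF β hβ0
      have hβ : β ≠ 0 := by rintro rfl; simp at h1
      obtain ⟨f, hf⟩ := Finsupp.support_nonempty_iff.2 hβ
      have hle : Finsupp.single f 1 ≤ β := by
        rw [Finsupp.single_le_iff]
        exact Nat.pos_of_ne_zero (Finsupp.mem_support_iff.1 hf)
      have h2 := key (β - Finsupp.single f 1) f
      rw [coeff_pderiv, tsub_add_cancel_of_le hle] at h2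
      apply mem_of_cast_mul (n := (β - Finsupp.single f 1 : Idx κ →₀ ℕ) f + 1) (Nat.succ_ne_zero _)
      rw [mul_comm]
      push_cast
      exact h2

end main

end

end Pool.Agent.H901R3
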