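import Pool.Agent.H901R3.Coinv2

set_option autoImplicit false

open MvPolynomial

namespace Pool.Agent.H901R3

noncomputable section

section homog

variable {K : Type} [Field K] {σ ι : Type} {N : Type} [AddCancelCommMonoid N]

lemma whc_mul (w : σ → N) {P : MvPolynomial σ K} {d : N} (hP : IsWeightedHomogeneous w P d) (e : N)
    (c : MvPolynomial σ K) :
    (∃ e' c', e' + d = e ∧ IsWeightedHomogeneous w c' e' ∧
      weightedHomogeneousComponent w e (c * P) = c' * P)
    ∨ weightedHomogeneousComponent w e (c * P) = 0 := by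
  classical
  induction c using MvPolynomial.induction_on' with
  | monomial u a =>
    have h0 : IsWeightedHomogeneous w (monomial u a) (Finsupp.weight w u) :=
      isWeightedHomogeneous_monomial w u a rfl
    have h1 := h0.mul hP
    by_cases h : e = Finsupp.weight w u + d
    · left; subst h; exact ⟨_, _, rfl, h0, h1.weightedHomogeneousComponent_same⟩
    · right; exact h1.weightedHomogeneousComponent_ne _ h
  | add p q hp hq =>
    rw [add_mul, map_add]
    rcases hp with ⟨e1, c1, h1, h2, h3⟩ | hp
    · rcases hq with ⟨e2, c2, g1, g2, g3⟩ | hq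
      · left
        have : e1 = e2 := add_right_cancel (h1.trans g1.symm)
        subst this
        exact ⟨e1, c1 + c2, h1, h2.add g2, by rw [h3, g3, add_mul]⟩
      · left
        exact ⟨e1, c1, h1, h2, by rw [h3, hq, add_zero]⟩
    · rcases hq with ⟨e2, c2, g1, g2, g3⟩ | hq
      · left
        exact ⟨e2, c2, g1, g2, by rw [g3, hp, zero_add]⟩
      · right
        rw [hp, hq, add_zero]

lemma ideal_homog (w : σ → N) (P : ι → MvPolynomial σ K) (d : ι → N)
    (hP : ∀ f, IsWeightedHomogeneous w (P f) (d f)) {v : MvPolynomial σ K} {e : N}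
    (hv : v ∈ Ideal.span (Set.range P)) (hve : IsWeightedHomogeneous w v e) :
    ∃ (s : Finset ι) (c : ι → MvPolynomial σ K), v = ∑ f ∈ s, c f * P f ∧
      ∀ f ∈ s, ∃ e', e' + d f = e ∧ IsWeightedHomogeneous w (c f) e' := by
  classical
  obtain ⟨c, hc⟩ := Finsupp.mem_ideal_span_range_iff_exists_finsupp.1 hv
  have h1 : v = ∑ f ∈ c.support, weightedHomogeneousComponent w e (c f * P f) := by
    rw [← map_sum]
    have : ∑ f ∈ c.support, c f * P f = v := hc
    rw [this, hve.weightedHomogeneousComponent_same]
  have h2 := fun f => whc_mul w (hP f) e (c f)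
  let A : ι → Prop := fun f => ∃ e' c', e' + d f = e ∧ IsWeightedHomogeneous w c' e' ∧
      weightedHomogeneousComponent w e (c f * P f) = c' * P f
  have h3 : ∀ f, ∃ c' : MvPolynomial σ K, A f → (weightedHomogeneousComponent w e (c f * P f) = c' * P f
      ∧ ∃ e', e' + d f = e ∧ IsWeightedHomogeneous w c' e') := by
    intro f
    by_cases hA : A f
    · obtain ⟨e', c', a1, a2, a3⟩ := hA
      exact ⟨c', fun _ => ⟨a3, e', a1, a2⟩⟩
    · exact ⟨0, fun h => absurd h hA⟩
  choose c' hc' using h3
  refine ⟨c.support.filter A, c', ?_, ?_⟩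
  · rw [h1, Finset.sum_filter]
    apply Finset.sum_congr rfl
    intro f _
    by_cases hA : A f
    · rw [if_pos hA, (hc' f hA).1]
    · rw [if_neg hA]
      rcases h2 f with h | h
      · exact absurd h hA
      · exact h
  · intro f hf
    exact (hc' f (Finset.mem_filter.1 hf).2).2

lemma rep_of_ideal {κ : Type} {p : Idx κ → MvPolynomial σ K}
    (hp : ∀ f, (p f).IsHomogeneous (Finsupp.degree f.1))
    {v : MvPolynomial σ K} {e : ℕ} (hv : v ∈ Ideal.span (Set.range p)) (hve : v.IsHomogeneous e) :
    Rep p 1 (fun d => homogeneousSubmodule σ K d) e v := by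
  obtain ⟨s, c, h1, h2⟩ := ideal_homog (1 : σ → ℕ) p (fun f => Finsupp.degree f.1) hp hv hve
  refine ⟨∑ f ∈ s, monomial (Finsupp.single f 1) (c f), ?_, ?_⟩
  · apply Submodule.sum_mem
    intro f hf
    obtain ⟨e', h3, h4⟩ := h2 f hf
    apply monomial_mem_GF (e' := e')
    · exact Finsupp.degree_single _ _
    · rw [wt_single]; omega
    · exact h4
  · rw [h1, map_sum]
    apply Finset.sum_congr rfl
    intro f _
    rw [eval_monomial]
    simp

end homog

section rho

variable (K : Type) [Field K] (κ J : Type)

abbrev RB := MvPolynomial (κ × Option J) K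

open Classical in
/-- substitute zero for the difference variables of the points in `T` -/
def rhoFun (T : Finset J) (v : κ × Option J) : RB K κ J :=
  match v with
  | (a, none) => X (a, none)
  | (a, some j) => if j ∈ T then 0 else X (a, some j)

def rho (T : Finset J) : RB K κ J →ₐ[K] RB K κ J := aeval (rhoFun K κ J T)

variable {K κ J}

@[simp] lemma rho_none (T : Finset J) (a : κ) : rho K κ J T (X (a, none)) = X (a, none) := by
  simp [rho, rhoFun]

lemma rho_some_mem {T : Finset J} {j : J} (h : j ∈ T) (a : κ) :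
    rho K κ J T (X (a, some j)) = 0 := by
  simp [rho, rhoFun, h]

lemma rho_some_notMem {T : Finset J} {j : J} (h : j ∉ T) (a : κ) :
    rho K κ J T (X (a, some j)) = X (a, some j) := by
  simp [rho, rhoFun, h]

lemma rho_rho [DecidableEq J] (T T' : Finset J) (v : RB K κ J) :
    rho K κ J T (rho K κ J T' v) = rho K κ J (T ∪ T') v := by
  have : (rho K κ J T).comp (rho K κ J T') = rho K κ J (T ∪ T') := by
    apply MvPolynomial.algHom_ext
    rintro ⟨a, _ | j⟩
    · simp
    · rw [AlgHom.comp_apply]
      by_cases h' : j ∈ T'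
      · rw [rho_some_mem h', map_zero, rho_some_mem (Finset.mem_union_right _ h')]
      · rw [rho_some_notMem h']
        by_cases h : j ∈ T
        · rw [rho_some_mem h, rho_some_mem (Finset.mem_union_left _ h)]
        · rw [rho_some_notMem h, rho_some_notMem]
          rw [Finset.mem_union]; tauto
  exact DFunLike.congr_fun this v

lemma rho_empty (v : RB K κ J) : rho K κ J ∅ v = v := by
  have : rho K κ J ∅ = AlgHom.id K _ := by
    apply MvPolynomial.algHom_ext
    rintro ⟨a, _ | j⟩
    · simp
    · rw [rho_some_notMem (Finset.notMem_empty _)]; rfl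
  rw [this]; rfl

lemma rho_homog (T : Finset J) {v : RB K κ J} {e : ℕ} (hv : v.IsHomogeneous e) :
    (rho K κ J T v).IsHomogeneous e := by
  have := hv.aeval (rhoFun K κ J T) (n := 1) (by
    rintro ⟨a, _ | j⟩
    · exact isHomogeneous_X _ _
    · unfold rhoFun
      dsimp only
      split
      · exact isHomogeneous_zero _ _ _
      · exact isHomogeneous_X _ _)
  rwa [one_mul] at this

lemma rho_monomial_of (u : J) (s : κ × Option J →₀ ℕ) (r : K) (h : ∀ a, s (a, some u) = 0) :
    rho K κ J {u} (monomial s r) = monomial s r := by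
  unfold rho
  rw [aeval_monomial, monomial_eq]
  congr 1
  apply Finsupp.prod_congr
  rintro ⟨a, _ | j⟩ hx
  · simp [rhoFun]
  · have : j ≠ u := by
      rintro rfl
      exact (Finsupp.mem_support_iff.1 hx) (h a)
    simp [rhoFun, this]

lemma rho_monomial_not (u : J) (s : κ × Option J →₀ ℕ) (r : K) (a : κ) (h : s (a, some u) ≠ 0) :
    rho K κ J {u} (monomial s r) = 0 := by
  classical
  unfold rho
  rw [aeval_monomial, Finsupp.prod, Finset.prod_eq_zero (Finsupp.mem_support_iff.2 h), mul_zero]
  simp [rhoFun, h]

lemma coeff_rho (u : J) (s : κ × Option J →₀ ℕ) (h : ∀ a, s (a, some u) = 0) (v : RB K κ J) :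
    coeff s (rho K κ J {u} v) = coeff s v := by
  classical
  induction v using MvPolynomial.induction_on' with
  | monomial t r =>
    by_cases ht : ∀ a, t (a, some u) = 0
    · rw [rho_monomial_of u t r ht]
    · push Not at ht
      obtain ⟨a, ha⟩ := ht
      rw [rho_monomial_not u t r a ha, coeff_zero, coeff_monomial, if_neg]
      rintro rfl
      exact ha (h a)
  | add p q hp hq => rw [map_add, coeff_add, coeff_add, hp, hq]

lemma eq_zero_of_rho [Fintype J] {v : RB K κ J} {e : ℕ} (hv : v.IsHomogeneous e)
    (he : e < Fintype.card J) (h : ∀ u, rho K κ J {u} v = 0) : v = 0 := by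
  classical
  refine MvPolynomial.ext _ _ (fun s => ?_)
  rw [coeff_zero]
  by_contra hs
  have hdeg : Finsupp.degree s = e := by
    have := hv hs
    exact (DFunLike.congr_fun Finsupp.degree_eq_weight_one s).trans this
  have hex : ∃ u : J, ∀ a, s (a, some u) = 0 := by
    by_contra hc
    push Not at hc
    choose a ha using hc
    have hinj : Function.Injective (fun u : J => (a u, some u)) := by
      intro u u' h
      simpa using (congrArg Prod.snd h)
    have hcard : Fintype.card J ≤ s.support.card := by
      rw [← Finset.card_univ, ← Finset.card_image_of_injective _ hinj]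
      apply Finset.card_le_card
      intro x hx
      obtain ⟨u, _, rfl⟩ := Finset.mem_image.1 hx
      exact Finsupp.mem_support_iff.2 (ha u)
    have hle : s.support.card ≤ Finsupp.degree s := by
      rw [Finsupp.degree_apply, Finset.card_eq_sum_ones]
      apply Finset.sum_le_sum
      intro x hx
      exact Nat.pos_of_ne_zero (Finsupp.mem_support_iff.1 hx)
    omega
  obtain ⟨u, hu⟩ := hex
  apply hs
  rw [← coeff_rho u s hu v, h u, coeff_zero]

/-- graded pieces: `T`-reduced, vanishing on the diagonals in `U` -/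
def LL (T U : Finset J) (e : ℕ) : Submodule K (RB K κ J) where
  carrier := {v | v.IsHomogeneous e ∧ rho K κ J T v = v ∧ ∀ u ∈ U, rho K κ J {u} v = 0}
  zero_mem' := ⟨isHomogeneous_zero _ _ _, map_zero _, fun _ _ => map_zero _⟩
  add_mem' := by
    rintro v w ⟨a1, a2, a3⟩ ⟨b1, b2, b3⟩
    refine ⟨a1.add b1, by rw [map_add, a2, b2], fun u hu => by rw [map_add, a3 u hu, b3 u hu, add_zero]⟩
  smul_mem' := by
    rintro c v ⟨a1, a2, a3⟩
    refine ⟨?_, by rw [map_smul, a2], fun u hu => by rw [map_smul, a3 u hu, smul_zero]⟩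
    rw [smul_eq_C_mul]; exact a1.C_mul c

lemma mem_LL {T U : Finset J} {e : ℕ} {v : RB K κ J} : v ∈ LL T U e ↔
    v.IsHomogeneous e ∧ rho K κ J T v = v ∧ ∀ u ∈ U, rho K κ J {u} v = 0 := Iff.rfl

end rho

end

end Pool.Agent.H901R3
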