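import Pool.Agent.H901R3.Coinv3

set_option autoImplicit false

open MvPolynomial

namespace Pool.Agent.H901R3

noncomputable section

section gen

variable {K : Type} [Field K] {κ R R' : Type} [CommRing R] [Algebra K R] [CommRing R'] [Algebra K R']

lemma Rep.smul {p : Idx κ → R} {k : ℕ} {M : ℕ → Submodule K R} {e : ℕ} {v : R} (c : K)
    (hv : Rep p k M e v) : Rep p k M e (c • v) := by
  obtain ⟨F, hF, rfl⟩ := hv
  refine ⟨c • F, Submodule.smul_mem _ _ hF, ?_⟩
  rw [Algebra.smul_def, Algebra.smul_def, map_mul]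
  congr 1
  rw [IsScalarTower.algebraMap_apply K R (MvPolynomial (Idx κ) R), algebraMap_eq, eval_C]

lemma Rep.mul_prod {p : Idx κ → R} {k l : ℕ} {M : ℕ → Submodule K R} {e e' : ℕ} {v : R}
    {β : Idx κ →₀ ℕ} (hd : Finsupp.degree β = k) (he : e' + wt β = e)
    (hv : Rep p l M e' v) : Rep p (k + l) M e (v * β.prod (fun f n => p f ^ n)) := by
  obtain ⟨F, hF, rfl⟩ := hv
  refine GF_induction (C := fun F => Rep p (k+l) M e (eval p F * β.prod (fun f n => p f ^ n)))
    ?_ ?_ ?_ hF
  · rw [map_zero, zero_mul]; exact Rep.zero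
  · intro F G _ _ h1 h2
    rw [map_add, add_mul]; exact h1.add h2
  · intro γ c e'' h1 h2 h3
    refine ⟨monomial (γ + β) c, ?_, ?_⟩
    · apply monomial_mem_GF (e' := e'')
      · rw [map_add]; omega
      · rw [map_add]; omega
      · exact h3
    · rw [eval_monomial, eval_monomial,
        Finsupp.prod_add_index' (by simp) (by intros; rw [pow_add])]
      ring

lemma Rep.monomial_rep {p : Idx κ → R} {k : ℕ} {M : ℕ → Submodule K R} {e e' : ℕ} {c : R}
    {β : Idx κ →₀ ℕ} (hd : Finsupp.degree β = k) (he : e' + wt β = e)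
    (hc : c ∈ M e') : Rep p k M e (c * β.prod (fun f n => p f ^ n)) :=
  ⟨monomial β c, monomial_mem_GF hd he hc, by rw [eval_monomial]⟩

lemma Rep.to_one {p : Idx κ → R} {k : ℕ} (hk : 1 ≤ k) {M : ℕ → Submodule K R} {e : ℕ} {v : R}
    (hM : ∀ (f : Idx κ) d, ∀ v ∈ M d, v * p f ∈ M (d + Finsupp.degree f.1))
    (hv : Rep p k M e v) : Rep p 1 M e v := by
  obtain ⟨F, hF, rfl⟩ := hv
  rcases Nat.eq_or_lt_of_le hk with h | h
  · subst h; exact ⟨F, hF, rfl⟩
  · obtain ⟨G, hG, h1, _⟩ := Rep.lowerTo h hM hF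
    exact ⟨G, hG, h1⟩

end gen

section claims

variable {K : Type} [Field K] {κ J : Type} [Fintype J] (m : J → ℕ)

variable (K κ J) in
/-- the coordinate change `x_j = u_j + y` -/
def Th : RJ K κ J →ₐ[K] RB K κ J := aeval (fun v => X (v.1, some v.2) + X (v.1, none))

/-- generators after merging the points of `T` into `y` -/
def pB (T : Finset J) (f : Idx κ) : RB K κ J := rho K κ J T (Th K κ J (PJ m f))

lemma Th_homog {v : RJ K κ J} {e : ℕ} (hv : v.IsHomogeneous e) : (Th K κ J v).IsHomogeneous e := by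
  have := hv.aeval (fun v : κ × J => (X (v.1, some v.2) + X (v.1, none) : RB K κ J)) (n := 1) (by
    intro v
    exact (isHomogeneous_X _ _).add (isHomogeneous_X _ _))
  rwa [one_mul] at this

lemma pB_homog (T : Finset J) (f : Idx κ) : (pB (K := K) m T f).IsHomogeneous (Finsupp.degree f.1) :=
  rho_homog T (Th_homog (PJ_hom m f))

lemma rho_pB [DecidableEq J] (T T' : Finset J) (f : Idx κ) :
    rho K κ J T' (pB (K := K) m T f) = pB m (T' ∪ T) f := by
  unfold pB; rw [rho_rho]

lemma rho_pB_self [DecidableEq J] (T : Finset J) (f : Idx κ) :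
    rho K κ J T (pB (K := K) m T f) = pB m T f := by
  rw [rho_pB, Finset.union_self]

lemma LL_mul_pB [DecidableEq J] (T U : Finset J) (f : Idx κ) (d : ℕ) (v : RB K κ J)
    (hv : v ∈ LL T U d) : v * pB m T f ∈ LL T U (d + Finsupp.degree f.1) := by
  obtain ⟨h1, h2, h3⟩ := hv
  refine ⟨h1.mul (pB_homog m T f), ?_, ?_⟩
  · rw [map_mul, h2, rho_pB_self]
  · intro u hu
    rw [map_mul, h3 u hu, zero_mul]

lemma LL_mul_prod [DecidableEq J] {T U : Finset J} (β : Idx κ →₀ ℕ) :
    ∀ (e e' : ℕ) (c : RB K κ J), e' + wt β = e → c ∈ LL T U e' →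
      c * β.prod (fun f n => pB m T f ^ n) ∈ LL T U e := by
  induction β using Finsupp.induction_linear with
  | zero =>
    intro e e' c hw hc
    simp at hw ⊢; rwa [← hw]
  | add β γ hβ hγ =>
    intro e e' c hw hc
    rw [Finsupp.prod_add_index' (by simp) (by intros; rw [pow_add]), ← mul_assoc]
    rw [map_add] at hw
    exact hγ e (e' + wt β) _ (by omega) (hβ (e' + wt β) e' c rfl hc)
  | single f n =>
    intro e e' c hw hc
    rw [Finsupp.prod_single_index (by simp)]
    rw [wt_single] at hw
    induction n generalizing e with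
    | zero => simp at hw ⊢; rwa [← hw]
    | succ n ih =>
      rw [pow_succ, ← mul_assoc]
      have := LL_mul_pB m T U f _ _ (ih (e' + n * Finsupp.degree f.1) rfl)
      have he : e' + n * Finsupp.degree f.1 + Finsupp.degree f.1 = e := by
        rw [← hw]; ring
      rwa [he] at this

/-- represented elements stay in the graded pieces -/
lemma LL_of_rep [DecidableEq J] {T U : Finset J} {k e : ℕ} {v : RB K κ J}
    (hv : Rep (pB m T) k (LL T U) e v) : v ∈ LL T U e := by
  obtain ⟨F, hF, rfl⟩ := hv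
  refine GF_induction (C := fun F => eval (pB m T) F ∈ LL T U e) ?_ ?_ ?_ hF
  · rw [map_zero]; exact Submodule.zero_mem _
  · intro F G _ _ h1 h2; rw [map_add]; exact Submodule.add_mem _ h1 h2
  · intro β c e' _ hw hc
    rw [eval_monomial]
    exact LL_mul_prod m β e e' c hw hc

lemma LL_insert_le [DecidableEq J] (T U : Finset J) (t : J) (e : ℕ) :
    (LL (insert t T) U e : Submodule K (RB K κ J)) ≤ LL T U e := by
  rintro v ⟨h1, h2, h3⟩
  refine ⟨h1, ?_, h3⟩
  conv_lhs => rw [← h2]
  rw [rho_rho, Finset.union_eq_right.2 (Finset.subset_insert t T), h2]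

lemma rho_t_LL [DecidableEq J] {T U : Finset J} {t : J} {e : ℕ} {v : RB K κ J}
    (hv : v ∈ LL T U e) : rho K κ J {t} v ∈ LL (insert t T) U e := by
  obtain ⟨h1, h2, h3⟩ := hv
  refine ⟨rho_homog _ h1, ?_, ?_⟩
  · rw [rho_rho]
    have : insert t T ∪ {t} = {t} ∪ T := by
      ext x; simp
    rw [this, ← rho_rho, h2]
  · intro u hu
    rw [rho_rho, Finset.union_comm, ← rho_rho, h3 u hu, map_zero]

lemma rho_t_fix [DecidableEq J] {T U : Finset J} {t : J} {e : ℕ} {v : RB K κ J}
    (hv : v ∈ LL (insert t T) U e) : rho K κ J {t} v = v := by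
  obtain ⟨h1, h2, h3⟩ := hv
  conv_lhs => rw [← h2]
  rw [rho_rho]
  have : {t} ∪ insert t T = insert t T := by ext x; simp
  rw [this, h2]

variable (K κ) in
/-- quasi-regularity for the merged configuration -/
def QRT (T : Finset J) : Prop :=
  ∀ e, e + T.card ≤ Fintype.card J + 1 → ∀ k, ∀ F : MvPolynomial (Idx κ) (RB K κ J),
    F ∈ GF k (LL T ∅) e → eval (pB m T) F = 0 →
    ∀ β e', e' + wt β = e → Rep (pB m T) 1 (LL T ∅) e' (coeff β F)

variable (K κ) in
def CL (U : Finset J) : Prop :=
  ∀ T : Finset J, T.Nonempty → ∀ e, e + T.card ≤ Fintype.card J → ∀ v : RB K κ J, v ∈ LL T U e →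
    Rep (pB m T) 1 (LL T ∅) e v → Rep (pB m T) 1 (LL T U) e v

lemma claim_step [DecidableEq J] {U T : Finset J} {t : J} (hTn : T.Nonempty) (ht : t ∉ T) {e : ℕ}
    (he : e + T.card ≤ Fintype.card J) (ihU : CL K κ m U) (hQ : QRT K κ m (insert t T)) :
    ∀ n k, 1 ≤ k → e < k + n → ∀ v : RB K κ J, v ∈ LL T (insert t U) e →
      Rep (pB m T) k (LL T U) e v → Rep (pB m T) 1 (LL T (insert t U)) e v := by
  intro n
  induction n with
  | zero =>
    rintro k hk hek v hv ⟨F, hF, rfl⟩
    have : F = 0 := by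
      refine MvPolynomial.ext _ _ (fun β => ?_)
      rw [coeff_zero]
      by_contra h
      obtain ⟨h1, e', h2, _⟩ := hF β h
      have := degree_le_wt β
      omega
    rw [this, map_zero]; exact Rep.zero
  | succ n ih =>
    rintro k hk hek v hv ⟨F, hF, rfl⟩
    have hcard : (insert t T).card = T.card + 1 := Finset.card_insert_of_notMem ht
    -- image under rho_t
    have hFt : MvPolynomial.map (rho K κ J {t} : RB K κ J →+* RB K κ J) F
        ∈ GF k (LL (insert t T) U) e := GF_map _ (fun d v hv => rho_t_LL hv) hF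
    have hev : ∀ G : MvPolynomial (Idx κ) (RB K κ J),
        eval (pB m (insert t T)) (MvPolynomial.map (rho K κ J {t} : RB K κ J →+* RB K κ J) G)
          = rho K κ J {t} (eval (pB m T) G) := by
      intro G
      rw [eval_map]
      have h1 : rho K κ J {t} (eval (pB m T) G) =
          eval₂ (rho K κ J {t} : RB K κ J →+* RB K κ J)
            ((rho K κ J {t} : RB K κ J →+* RB K κ J) ∘ (pB m T)) G := by
        have := eval₂_comp_left (rho K κ J {t} : RB K κ J →+* RB K κ J) (RingHom.id _) (pB m T) G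
        rw [RingHom.comp_id] at this
        rw [← this, eval₂_id]; rfl
      rw [h1]
      congr 1
      funext f
      show _ = rho K κ J {t} (pB m T f)
      rw [rho_pB]; rfl
    have hzero : eval (pB m (insert t T))
        (MvPolynomial.map (rho K κ J {t} : RB K κ J →+* RB K κ J) F) = 0 := by
      rw [hev]
      exact hv.2.2 t (Finset.mem_insert_self t U)
    have hQ' := hQ e (by omega) k _ (GF_mono (fun d => by
      rintro v ⟨a, b, c⟩; exact ⟨a, b, fun u hu => absurd hu (Finset.notMem_empty u)⟩) hFt) hzero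
    -- the modified graded family
    let M' : ℕ → Submodule K (RB K κ J) := fun d =>
      { carrier := {c | c ∈ LL T U d ∧ (d < e →
          Rep (pB m (insert t T)) 1 (LL (insert t T) U) d (rho K κ J {t} c))}
        zero_mem' := ⟨Submodule.zero_mem _, fun _ => by rw [map_zero]; exact Rep.zero⟩
        add_mem' := by
          rintro a b ⟨a1, a2⟩ ⟨b1, b2⟩
          exact ⟨Submodule.add_mem _ a1 b1, fun h => by rw [map_add]; exact (a2 h).add (b2 h)⟩
        smul_mem' := by
          rintro c a ⟨a1, a2⟩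
          exact ⟨Submodule.smul_mem _ c a1, fun h => by rw [map_smul]; exact (a2 h).smul c⟩ }
    have hFM : F ∈ GF k M' e := by
      intro β hβ
      obtain ⟨h1, e', h2, h3⟩ := hF β hβ
      refine ⟨h1, e', h2, h3, fun hlt => ?_⟩
      have h4 := hQ' β e' h2
      rw [coeff_map] at h4
      exact ihU (insert t T) (Finset.insert_nonempty _ _) e' (by omega) _ (rho_t_LL h3) h4
    have hsplit : ∃ v1 v2, eval (pB m T) F = v1 + v2 ∧
        Rep (pB m T) k (LL T (insert t U)) e v1 ∧ Rep (pB m T) (k+1) (LL T U) e v2 := by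
      refine GF_induction (C := fun F => ∃ v1 v2, eval (pB m T) F = v1 + v2 ∧
        Rep (pB m T) k (LL T (insert t U)) e v1 ∧ Rep (pB m T) (k+1) (LL T U) e v2) ?_ ?_ ?_ hFM
      · exact ⟨0, 0, by simp, Rep.zero, Rep.zero⟩
      · rintro F G _ _ ⟨a1, a2, a3, a4, a5⟩ ⟨b1, b2, b3, b4, b5⟩
        exact ⟨a1 + b1, a2 + b2, by rw [map_add, a3, b3]; ring, a4.add b4, a5.add b5⟩
      · rintro β c e' h1 h2 ⟨h3, h4⟩
        have hlt : e' < e := by
          have := degree_le_wt β; omega
        obtain ⟨H, hH, hHe⟩ := h4 hlt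
        have hH' : H ∈ GF 1 (LL T U) e' := GF_mono (fun d => LL_insert_le T U t d) hH
        have hs : eval (pB m T) H ∈ LL T U e' := LL_of_rep m ⟨H, hH', rfl⟩
        have hmapH : MvPolynomial.map (rho K κ J {t} : RB K κ J →+* RB K κ J) H = H := by
          refine MvPolynomial.ext _ _ (fun γ => ?_)
          rw [coeff_map]
          by_cases hγ : coeff γ H = 0
          · rw [hγ, map_zero]
          · obtain ⟨_, e'', _, h5⟩ := hH γ hγ
            exact rho_t_fix h5
        have hc' : c - eval (pB m T) H ∈ LL T (insert t U) e' := by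
          have hsub := Submodule.sub_mem _ h3 hs
          refine ⟨hsub.1, hsub.2.1, ?_⟩
          intro u hu
          rcases Finset.mem_insert.1 hu with rfl | hu
          · rw [map_sub, ← hev H, hmapH, hHe, sub_self]
          · exact hsub.2.2 u hu
        refine ⟨(c - eval (pB m T) H) * β.prod (fun f n => pB m T f ^ n),
          eval (pB m T) H * β.prod (fun f n => pB m T f ^ n), ?_, ?_, ?_⟩
        · rw [eval_monomial]; ring
        · exact Rep.monomial_rep h1 h2 hc'
        · exact Rep.mul_prod h1 h2 ⟨H, hH', rfl⟩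
    obtain ⟨v1, v2, h1, h2, h3⟩ := hsplit
    have hv1 : v1 ∈ LL T (insert t U) e := LL_of_rep m h2
    have hv2 : v2 ∈ LL T (insert t U) e := by
      have : v2 = eval (pB m T) F - v1 := by rw [h1]; ring
      rw [this]; exact Submodule.sub_mem _ hv hv1
    have h4 := ih (k + 1) (by omega) (by omega) v2 hv2 h3
    rw [h1]
    exact (h2.to_one hk (fun f d v hv => LL_mul_pB m T _ f d v hv)).add h4

theorem claim [DecidableEq J] (hQ : ∀ T : Finset J, 2 ≤ T.card → QRT K κ m T) (U : Finset J) :
    CL K κ m U := by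
  induction U using Finset.induction_on with
  | empty => intro T _ e _ v _ hv; exact hv
  | insert t U htU ih =>
    intro T hTn e he v hv hrep
    by_cases ht : t ∈ T
    · -- then v = 0
      have h0 : v = 0 := by
        have h1 := hv.2.2 t (Finset.mem_insert_self t U)
        have h2 := hv.2.1
        have h3 : rho K κ J T v = rho K κ J T (rho K κ J {t} v) := by
          rw [rho_rho, Finset.union_eq_left.2 (Finset.singleton_subset_iff.2 ht)]
        rw [h1, map_zero] at h3
        rw [← h2, h3]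
      rw [h0]; exact Rep.zero
    · have hvU : v ∈ LL T U e :=
        ⟨hv.1, hv.2.1, fun u hu => hv.2.2 u (Finset.mem_insert_of_mem hu)⟩
      have h1 := ih T hTn e he v hvU hrep
      have hc : (insert t T).card = T.card + 1 := Finset.card_insert_of_notMem ht
      have hT1 : 1 ≤ T.card := hTn.card_pos
      exact claim_step m hTn ht he ih (hQ _ (by omega)) (e + 1) 1 le_rfl (by omega) v hv h1

end claims

end

end Pool.Agent.H901R3
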