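import Pool.Agent.H901R3.Coinv4

set_option autoImplicit false
set_option linter.unusedSectionVars false

open MvPolynomial

namespace Pool.Agent.H901R3

noncomputable section

variable {K : Type} [Field K] {κ J : Type} [Fintype J] (m : J → ℕ)

section transfer

/-- index set of the merged configuration -/
abbrev JJ (T : Finset J) : Type := Option {j : J // j ∉ T}

/-- merged weights -/
def mT (T : Finset J) : JJ T → ℕ
  | none => ∑ j ∈ T, m j
  | some j => m j.1

open Classical in
def chiFun (K κ : Type) [Field K] (T : Finset J) (v : κ × Option J) : RJ K κ (JJ T) :=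
  match v with
  | (a, none) => X (a, none)
  | (a, some j) => if h : j ∉ T then X (a, some ⟨j, h⟩) - X (a, none) else 0

def chi (K κ : Type) [Field K] (T : Finset J) : RB K κ J →ₐ[K] RJ K κ (JJ T) :=
  aeval (chiFun K κ T)

def psiFun (K κ : Type) [Field K] (T : Finset J) (v : κ × JJ T) : RB K κ J :=
  match v with
  | (a, none) => X (a, none)
  | (a, some j) => X (a, some j.1) + X (a, none)

def psi (K κ : Type) [Field K] (T : Finset J) : RJ K κ (JJ T) →ₐ[K] RB K κ J :=
  aeval (psiFun K κ T)

lemma psi_chi (T : Finset J) (v : RB K κ J) : psi K κ T (chi K κ T v) = rho K κ J T v := by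
  have : (psi K κ T).comp (chi K κ T) = rho K κ J T := by
    apply MvPolynomial.algHom_ext
    rintro ⟨a, _ | j⟩
    · simp [psi, chi, chiFun, psiFun]
    · rw [AlgHom.comp_apply]
      by_cases h : j ∈ T
      · rw [rho_some_mem h]
        simp [chi, chiFun, h]
      · rw [rho_some_notMem h]
        simp [chi, chiFun, h, psi, psiFun]
  exact DFunLike.congr_fun this v

lemma chi_psi (T : Finset J) (v : RJ K κ (JJ T)) : chi K κ T (psi K κ T v) = v := by
  have : (chi K κ T).comp (psi K κ T) = AlgHom.id K _ := by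
    apply MvPolynomial.algHom_ext
    rintro ⟨a, _ | j⟩
    · simp [psi, chi, chiFun, psiFun]
    · have := j.2
      simp [psi, chi, chiFun, psiFun, this]
  exact DFunLike.congr_fun this v

lemma rho_psi (T : Finset J) (v : RJ K κ (JJ T)) :
    rho K κ J T (psi K κ T v) = psi K κ T v := by
  rw [← psi_chi, chi_psi]

lemma chi_homog (T : Finset J) {v : RB K κ J} {e : ℕ} (hv : v.IsHomogeneous e) :
    (chi K κ T v).IsHomogeneous e := by
  have := hv.aeval (chiFun K κ T) (n := 1) (by
    rintro ⟨a, _ | j⟩
    · exact isHomogeneous_X _ _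
    · unfold chiFun
      dsimp only
      split
      · exact (isHomogeneous_X _ _).sub (isHomogeneous_X _ _)
      · exact isHomogeneous_zero _ _ _)
  rwa [one_mul] at this

lemma psi_homog (T : Finset J) {v : RJ K κ (JJ T)} {e : ℕ} (hv : v.IsHomogeneous e) :
    (psi K κ T v).IsHomogeneous e := by
  have := hv.aeval (psiFun K κ T) (n := 1) (by
    rintro ⟨a, _ | j⟩
    · exact isHomogeneous_X _ _
    · exact (isHomogeneous_X _ _).add (isHomogeneous_X _ _))
  rwa [one_mul] at this

lemma psi_PJ [DecidableEq J] (T : Finset J) (f : Idx κ) :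
    psi K κ T (PJ (mT m T) f) = pB m T f := by
  have h1 : psi K κ T (PJ (mT m T) f) =
      pw (mT m T) (fun j a => psi K κ T (xx j a)) f :=
    map_pw (psi K κ T : RJ K κ (JJ T) →+* RB K κ J) (mT m T) xx f
  have h2 : pB (K := K) m T f = pw m (fun j a => rho K κ J T (Th K κ J (xx j a))) f := by
    unfold pB
    have h3 := map_pw ((rho K κ J T : RB K κ J →+* RB K κ J).comp
      (Th K κ J : RJ K κ J →+* RB K κ J)) m xx f
    exact h3
  rw [h1, h2]
  unfold pw
  rw [Fintype.sum_option]
  rw [← Finset.sum_add_sum_compl T]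
  congr 1
  · simp only [mT]
    push_cast
    rw [Finset.sum_mul]
    apply Finset.sum_congr rfl
    intro j hj
    congr 1
    congr 1
    funext a
    simp [psi, psiFun, Th, rho_some_mem hj]
  · simp only [mT]
    rw [Finset.sum_subtype (p := fun j => j ∉ T) Tᶜ (by simp)]
    apply Finset.sum_congr rfl
    intro j _
    congr 1
    congr 1
    funext a
    simp [psi, psiFun, Th, rho_some_notMem j.2]

lemma QRT_of_QR [DecidableEq J] (T : Finset J) (hQ : QR K κ (mT m T)) : QRT K κ m T := by
  intro e he k F hF h0 β e' hwt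
  have hcard : Fintype.card (JJ T) = Fintype.card J - T.card + 1 := by
    rw [Fintype.card_option]
    congr 1
    have := Fintype.card_subtype_compl (fun j => j ∈ T)
    rw [this, Fintype.card_coe]
  have hTle : T.card ≤ Fintype.card J := Finset.card_le_univ T
  have hF' : MvPolynomial.map (chi K κ T : RB K κ J →+* RJ K κ (JJ T)) F
      ∈ GF k (Hom K κ (JJ T)) e :=
    GF_map (M := (fun d => (LL T ∅ d : Submodule K (RB K κ J)))) (M' := Hom K κ (JJ T)) _
      (fun d v hv => chi_homog T (mem_LL.1 hv).1) hF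
  have hev : eval (PJ (mT m T)) (MvPolynomial.map (chi K κ T : RB K κ J →+* RJ K κ (JJ T)) F)
      = chi K κ T (eval (pB m T) F) := by
    rw [eval_map]
    have := eval₂_comp_left (chi K κ T : RB K κ J →+* RJ K κ (JJ T)) (RingHom.id _) (pB m T) F
    rw [RingHom.comp_id] at this
    have h1 : chi K κ T (eval (pB m T) F) = (chi K κ T : RB K κ J →+* RJ K κ (JJ T))
      (eval₂ (RingHom.id _) (pB m T) F) := by rw [eval₂_id]; rfl
    rw [h1, this]
    congr 1
    funext f
    show _ = chi K κ T (pB m T f)
    rw [← psi_PJ, chi_psi]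
  have h1 := hQ e (by omega) k _ hF' (by rw [hev, h0, map_zero]) β
  rw [coeff_map] at h1
  by_cases hc : coeff β F = 0
  · rw [hc]; exact Rep.zero
  obtain ⟨_, e'', h2, h3⟩ := hF β hc
  have h4 : e'' = e' := by omega
  subst h4
  have h5 := rep_of_ideal (fun f => PJ_hom (mT m T) f) h1 (chi_homog T h3.1)
  have h6 := Rep.map (M' := fun d => (LL T ∅ d : Submodule K (RB K κ J)))
    (psi K κ T : RJ K κ (JJ T) →+* RB K κ J) (by
    intro d v hv
    exact ⟨psi_homog T hv, rho_psi T v, fun u hu => absurd hu (Finset.notMem_empty u)⟩) h5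
  have h7 : (fun f => (psi K κ T : RJ K κ (JJ T) →+* RB K κ J) (PJ (mT m T) f)) = pB m T := by
    funext f
    exact psi_PJ m T f
  rw [h7] at h6
  have h8 : (psi K κ T : RJ K κ (JJ T) →+* RB K κ J)
      ((chi K κ T : RB K κ J →+* RJ K κ (JJ T)) (coeff β F)) = coeff β F := by
    have := psi_chi T (coeff β F)
    rw [h3.2.1] at this
    exact this
  rw [h8] at h6
  exact h6

end transfer

section D

/-- the coordinate change on polynomials in `y` -/
def Xi (K κ J : Type) [Field K] : MvPolynomial κ (RJ K κ J) →+* RB K κ J :=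
  eval₂Hom (Th K κ J : RJ K κ J →+* RB K κ J) (fun a => X (a, none))

def LamFun (K κ J : Type) [Field K] (v : κ × Option J) : MvPolynomial κ (RJ K κ J) :=
  match v with
  | (a, none) => X a
  | (a, some j) => C (X (a, j)) - X a

def Lam (K κ J : Type) [Field K] : RB K κ J →ₐ[K] MvPolynomial κ (RJ K κ J) :=
  aeval (LamFun K κ J)

lemma Lam_Th (v : RJ K κ J) : Lam K κ J (Th K κ J v) = C v := by
  have : (Lam K κ J : RB K κ J →+* MvPolynomial κ (RJ K κ J)).comp
      (Th K κ J : RJ K κ J →+* RB K κ J) = C := by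
    apply MvPolynomial.ringHom_ext
    · intro r
      simp only [RingHom.comp_apply]
      have h1 : (Th K κ J : RJ K κ J →+* RB K κ J) (C r) = algebraMap K _ r := (Th K κ J).commutes r
      rw [h1]
      have h2 : (Lam K κ J : RB K κ J →+* MvPolynomial κ (RJ K κ J)) (algebraMap K _ r)
        = algebraMap K _ r := (Lam K κ J).commutes r
      rw [h2]; rfl
    · rintro ⟨a, j⟩
      simp [Th, Lam, LamFun]
  exact DFunLike.congr_fun this v

lemma Lam_Xi (G : MvPolynomial κ (RJ K κ J)) : Lam K κ J (Xi K κ J G) = G := by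
  have : (Lam K κ J : RB K κ J →+* MvPolynomial κ (RJ K κ J)).comp (Xi K κ J) = RingHom.id _ := by
    apply MvPolynomial.ringHom_ext
    · intro r
      simp only [RingHom.comp_apply, Xi, coe_eval₂Hom, eval₂_C, RingHom.id_apply]
      exact Lam_Th r
    · intro a
      simp [Xi, Lam, LamFun]
  exact DFunLike.congr_fun this G

open Classical in
def tauFun (K κ J : Type) [Field K] (j : J) (v : κ × J) : RB K κ J :=
  if v.2 = j then X (v.1, none) else X (v.1, some v.2) + X (v.1, none)

def tau (K κ J : Type) [Field K] (j : J) : RJ K κ J →ₐ[K] RB K κ J := aeval (tauFun K κ J j)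

lemma tau_eq (j : J) (v : RJ K κ J) : tau K κ J j v = rho K κ J {j} (Th K κ J v) := by
  have : tau K κ J j = (rho K κ J {j}).comp (Th K κ J) := by
    apply MvPolynomial.algHom_ext
    rintro ⟨a, i⟩
    rw [AlgHom.comp_apply]
    by_cases h : i = j
    · subst h
      simp [tau, tauFun, Th, rho_some_mem (Finset.mem_singleton_self i)]
    · have h' : i ∉ ({j} : Finset J) := by simpa using h
      simp [tau, tauFun, Th, rho_some_notMem h', h]
  exact DFunLike.congr_fun this v

lemma rho_Xi (j : J) (G : MvPolynomial κ (RJ K κ J)) :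
    rho K κ J {j} (Xi K κ J G) = tau K κ J j (eval (xx j) G) := by
  have : (rho K κ J {j} : RB K κ J →+* RB K κ J).comp (Xi K κ J) =
      (tau K κ J j : RJ K κ J →+* RB K κ J).comp (eval (xx j)) := by
    apply MvPolynomial.ringHom_ext
    · intro r
      simp only [RingHom.comp_apply, Xi, coe_eval₂Hom, eval₂_C, eval_C]
      exact (tau_eq j r).symm
    · intro a
      simp [Xi, tau, tauFun]
  exact DFunLike.congr_fun this G

lemma Xi_homog {e : ℕ} {G : MvPolynomial κ (RJ K κ J)}
    (hG : ∀ γ, coeff γ G ≠ 0 → ∃ e', e' + Finsupp.degree γ = e ∧ coeff γ G ∈ Hom K κ J e') :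
    (Xi K κ J G).IsHomogeneous e := by
  rw [G.as_sum, map_sum]
  apply IsHomogeneous.sum
  intro γ hγ
  obtain ⟨e', h1, h2⟩ := hG γ (mem_support_iff.1 hγ)
  have h3 : Xi K κ J (monomial γ (coeff γ G)) = Th K κ J (coeff γ G) *
      mon (fun a => (X (a, none) : RB K κ J)) γ := by
    simp only [Xi, coe_eval₂Hom, eval₂_monomial]
    rfl
  rw [h3, ← h1]
  exact (Th_homog h2).mul (mon_hom (fun a => isHomogeneous_X _ _) γ)

lemma eval_homog {e : ℕ} {G : MvPolynomial κ (RJ K κ J)} (j : J)
    (hG : ∀ γ, coeff γ G ≠ 0 → ∃ e', e' + Finsupp.degree γ = e ∧ coeff γ G ∈ Hom K κ J e') :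
    (eval (xx j) G).IsHomogeneous e := by
  rw [G.as_sum, map_sum]
  apply IsHomogeneous.sum
  intro γ hγ
  obtain ⟨e', h1, h2⟩ := hG γ (mem_support_iff.1 hγ)
  rw [eval_monomial, ← h1]
  exact IsHomogeneous.mul h2 (mon_hom (fun a => isHomogeneous_X _ _) γ)

theorem DD_of_claim [DecidableEq J] (hC : ∀ U, CL K κ m U) : DD K κ m := by
  intro e he G hG hI
  have hG' := Xi_homog hG
  have hstart : ∀ j, Rep (pB m {j}) 1 (LL {j} ∅) e (rho K κ J {j} (Xi K κ J G)) := by
    intro j
    rw [rho_Xi]
    have h5 := rep_of_ideal (fun f => PJ_hom m f) (hI j) (eval_homog j hG)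
    have h6 := Rep.map (M' := fun d => (LL {j} ∅ d : Submodule K (RB K κ J)))
      (tau K κ J j : RJ K κ J →+* RB K κ J) (by
      intro d v hv
      refine ⟨?_, ?_, fun u hu => absurd hu (Finset.notMem_empty u)⟩
      · show (tau K κ J j v).IsHomogeneous d
        rw [tau_eq]; exact rho_homog _ (Th_homog hv)
      · show rho K κ J {j} (tau K κ J j v) = tau K κ J j v
        rw [tau_eq, rho_rho, Finset.union_self]) h5
    have h7 : (fun f => (tau K κ J j : RJ K κ J →+* RB K κ J) (PJ m f)) = pB m {j} := by
      funext f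
      exact tau_eq j (PJ m f)
    rw [h7] at h6
    exact h6
  have hstep : ∀ U : Finset J, ∃ v : RB K κ J, v ∈ LL ∅ U e ∧
      Rep (pB m ∅) 1 (LL ∅ ∅) e (Xi K κ J G - v) := by
    intro U
    induction U using Finset.induction_on with
    | empty =>
      refine ⟨Xi K κ J G, ⟨hG', rho_empty _, fun u hu => absurd hu (Finset.notMem_empty u)⟩, ?_⟩
      rw [sub_self]; exact Rep.zero
    | insert t U _ ih =>
      obtain ⟨v, hv, hr⟩ := ih
      have hvt : rho K κ J {t} v ∈ LL (insert t ∅) U e := rho_t_LL hv
      have hins : (insert t ∅ : Finset J) = {t} := rfl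
      rw [hins] at hvt
      have hrho : ∀ w, Rep (pB m ∅) 1 (LL ∅ ∅) e w →
          Rep (pB m {t}) 1 (LL {t} ∅) e (rho K κ J {t} w) := by
        intro w hw
        have h6 := Rep.map (M' := fun d => (LL {t} ∅ d : Submodule K (RB K κ J)))
          (rho K κ J {t} : RB K κ J →+* RB K κ J) (by
            intro d v hv
            have := rho_t_LL (t := t) hv
            exact this) hw
        have h7 : (fun f => (rho K κ J {t} : RB K κ J →+* RB K κ J) (pB m ∅ f)) = pB m {t} := by
          funext f
          show rho K κ J {t} (pB m ∅ f) = _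
          rw [rho_pB, Finset.union_empty]
        rw [h7] at h6
        exact h6
      have h1 : Rep (pB m {t}) 1 (LL {t} ∅) e (rho K κ J {t} v) := by
        have h2 := hstart t
        have h3 := (hrho _ hr).smul (-1 : K)
        have h4 := h2.add h3
        have h5 : rho K κ J {t} (Xi K κ J G) + (-1 : K) • rho K κ J {t} (Xi K κ J G - v)
            = rho K κ J {t} v := by
          rw [map_sub, neg_smul, one_smul]; ring
        rw [h5] at h4
        exact h4
      have h2 := hC U {t} (Finset.singleton_nonempty t) e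
        (by rw [Finset.card_singleton]; omega) _ hvt h1
      obtain ⟨F, hF, hFe⟩ := h2
      have hF0 : F ∈ GF 1 (LL ∅ U) e := GF_mono (fun d => by
        have := LL_insert_le (K := K) (κ := κ) ∅ U t d
        exact this) hF
      have hs : eval (pB m ∅) F ∈ LL ∅ U e := LL_of_rep m ⟨F, hF0, rfl⟩
      have hmapF : MvPolynomial.map (rho K κ J {t} : RB K κ J →+* RB K κ J) F = F := by
        refine MvPolynomial.ext _ _ (fun γ => ?_)
        rw [coeff_map]
        by_cases hγ : coeff γ F = 0
        · rw [hγ, map_zero]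
        · obtain ⟨_, e'', _, h5⟩ := hF γ hγ
          exact rho_t_fix (T := ∅) h5
      have hrt : rho K κ J {t} (eval (pB m ∅) F) = eval (pB m {t}) F := by
        have h1 : rho K κ J {t} (eval (pB m ∅) F) =
            eval₂ (rho K κ J {t} : RB K κ J →+* RB K κ J)
              ((rho K κ J {t} : RB K κ J →+* RB K κ J) ∘ (pB m ∅)) F := by
          have := eval₂_comp_left (rho K κ J {t} : RB K κ J →+* RB K κ J) (RingHom.id _) (pB m ∅) F
          rw [RingHom.comp_id] at this
          rw [← this, eval₂_id]; rfl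
        have h7 : ((rho K κ J {t} : RB K κ J →+* RB K κ J) ∘ (pB m ∅)) = pB m {t} := by
          funext f
          show rho K κ J {t} (pB m ∅ f) = _
          rw [rho_pB, Finset.union_empty]
        rw [h1, h7, ← eval_map, hmapF]
      refine ⟨v - eval (pB m ∅) F, ?_, ?_⟩
      · have hsub := Submodule.sub_mem _ hv hs
        refine ⟨hsub.1, hsub.2.1, ?_⟩
        intro u hu
        rcases Finset.mem_insert.1 hu with rfl | hu
        · rw [map_sub, hrt, hFe, sub_self]
        · exact hsub.2.2 u hu
      · have h8 : Rep (pB m ∅) 1 (LL ∅ ∅) e (eval (pB m ∅) F) :=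
          ⟨F, GF_mono (fun d => by
            rintro v ⟨a, b, c⟩; exact ⟨a, b, fun u hu => absurd hu (Finset.notMem_empty u)⟩) hF0, rfl⟩
        have h9 := hr.add h8
        have h10 : Xi K κ J G - v + eval (pB m ∅) F = Xi K κ J G - (v - eval (pB m ∅) F) := by ring
        rw [h10] at h9
        exact h9
  obtain ⟨v, hv, hr⟩ := hstep Finset.univ
  have hv0 : v = 0 := eq_zero_of_rho hv.1 he (fun u => hv.2.2 u (Finset.mem_univ u))
  rw [hv0, sub_zero] at hr
  have hmem := Rep.mem_ideal (k := 0) hr
  have hle : Ideal.span (Set.range (pB (K := K) (κ := κ) m ∅)) ≤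
      Ideal.comap (Lam K κ J : RB K κ J →+* MvPolynomial κ (RJ K κ J))
        (Ideal.map C (IJ K κ m)) := by
    rw [Ideal.span_le]
    rintro _ ⟨f, rfl⟩
    show Lam K κ J (pB m ∅ f) ∈ Ideal.map C (IJ K κ m)
    unfold pB
    rw [rho_empty, Lam_Th]
    exact Ideal.mem_map_of_mem _ (Ideal.subset_span (Set.mem_range_self f))
  have h1 := hle hmem
  have h2 : G ∈ Ideal.map C (IJ K κ m) := by
    have h3 : Lam K κ J (Xi K κ J G) ∈ Ideal.map C (IJ K κ m) := h1
    rwa [Lam_Xi] at h3
  exact mem_map_C_iff.1 h2

end D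

section final

variable (K κ)

/-- quasi-regularity of the weighted power sums up to degree the number of points -/
theorem QR_all [CharZero K] : ∀ N : ℕ, ∀ (J : Type) [Fintype J] (m : J → ℕ), (∀ j, 0 < m j) →
    Fintype.card J = N → QR K κ m := by
  intro N
  induction N using Nat.strong_induction_on with
  | _ N ih =>
    intro J _ m hm hJ
    classical
    apply QR_of_DD m hm
    apply DD_of_claim
    apply claim
    intro T hT
    apply QRT_of_QR
    have hcard : Fintype.card (JJ T) = Fintype.card J - T.card + 1 := by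
      rw [Fintype.card_option]
      congr 1
      have := Fintype.card_subtype_compl (fun j => j ∈ T)
      rw [this, Fintype.card_coe]
    have hTle : T.card ≤ Fintype.card J := Finset.card_le_univ T
    apply ih (Fintype.card (JJ T)) (by omega) (JJ T) (mT m T) ?_ rfl
    rintro (_ | j)
    · show 0 < ∑ j ∈ T, m j
      apply Finset.sum_pos (fun j _ => hm j)
      rw [← Finset.card_pos]; omega
    · exact hm j.1

end final

end

end Pool.Agent.H901R3
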