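import Pool.Agent.H901R3.Coinv5

set_option autoImplicit false
set_option linter.unusedSectionVars false

open MvPolynomial

namespace Pool.Agent.H901R3

noncomputable section

variable {K : Type} [Field K] [CharZero K] {κ J : Type} [Fintype J] [DecidableEq J]

lemma mon_add {R : Type} [CommRing R] (x : κ → R) (f g : κ →₀ ℕ) :
    mon x (f + g) = mon x f * mon x g := by
  unfold mon
  rw [Finsupp.prod_add_index' (by simp) (by intros; rw [pow_add])]

lemma mon_zero {R : Type} [CommRing R] (x : κ → R) : mon x 0 = 1 := by
  simp [mon]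

/-- symmetrised monomial -/
def EE (K : Type) [Field K] (α : J → (κ →₀ ℕ)) : RJ K κ J :=
  ∑ σ : Equiv.Perm J, ∏ j, mon (xx (σ j)) (α j)

abbrev one' (J : Type) : J → ℕ := fun _ => 1

lemma EE_perm (α : J → (κ →₀ ℕ)) (π : Equiv.Perm J) : EE K (fun j => α (π j)) = EE K α := by
  unfold EE
  rw [← Equiv.sum_comp (Equiv.mulRight π)]
  apply Finset.sum_congr rfl
  intro σ _
  rw [← Equiv.prod_comp π (fun j => mon (xx (K := K) (σ j)) (α j))]
  apply Finset.prod_congr rfl
  intro j _
  rfl

open Classical in
lemma EE_mem (r : ℕ) : ∀ α : J → (κ →₀ ℕ), (Finset.univ.filter (fun j => α j ≠ 0)).card = r + 1 →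
    EE K α ∈ IJ K κ (one' J) := by
  induction r using Nat.strong_induction_on with
  | _ r ih =>
    intro α hα
    obtain ⟨j0, hj0⟩ : ∃ j0, α j0 ≠ 0 := by
      have : 0 < (Finset.univ.filter (fun j => α j ≠ 0)).card := by omega
      obtain ⟨j, hj⟩ := Finset.card_pos.1 this
      exact ⟨j, (Finset.mem_filter.1 hj).2⟩
    let αl : J → J → (κ →₀ ℕ) := fun l j => Function.update α j0 0 j + (Pi.single l (α j0) : J → (κ →₀ ℕ)) j
    have hsum : ∑ l, EE K (αl l) = PJ (one' J) ⟨α j0, hj0⟩ * EE K (Function.update α j0 0) := by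
      unfold EE
      rw [Finset.sum_comm, Finset.mul_sum]
      apply Finset.sum_congr rfl
      intro σ _
      have h1 : ∀ l, ∏ j, mon (xx (K := K) (σ j)) (αl l j) =
          mon (xx (σ l)) (α j0) * ∏ j, mon (xx (σ j)) (Function.update α j0 0 j) := by
        intro l
        simp only [αl, mon_add]
        rw [Finset.prod_mul_distrib, mul_comm]
        congr 1
        rw [Finset.prod_eq_single l]
        · rw [Pi.single_eq_same]
        · intro b _ hb
          rw [Pi.single_eq_of_ne hb, mon_zero]
        · intro h; exact absurd (Finset.mem_univ l) h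
      simp only [h1]
      rw [← Finset.sum_mul]
      congr 1
      rw [Equiv.sum_comp σ (fun i => mon (xx (K := K) i) (α j0))]
      simp [PJ, pw, one']
    have hmem : ∑ l, EE K (αl l) ∈ IJ K κ (one' J) := by
      rw [hsum]
      exact Ideal.mul_mem_right _ _ (Ideal.subset_span (Set.mem_range_self _))
    let A : Finset J := Finset.univ.filter (fun l => l = j0 ∨ α l = 0)
    have hsplit := Finset.sum_filter_add_sum_filter_not Finset.univ (fun l => l = j0 ∨ α l = 0)
      (fun l => EE K (αl l))
    have hA : ∑ l ∈ Finset.univ.filter (fun l => l = j0 ∨ α l = 0), EE K (αl l)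
        = ((Finset.univ.filter (fun l => l = j0 ∨ α l = 0)).card : RJ K κ J) * EE K α := by
      rw [← nsmul_eq_mul, ← Finset.sum_const]
      apply Finset.sum_congr rfl
      intro l hl
      have hl' := (Finset.mem_filter.1 hl).2
      have hfun : αl l = fun j => α (Equiv.swap j0 l j) := by
        funext j
        simp only [αl]
        by_cases h1 : j = j0
        · subst h1
          rw [Function.update_self, Equiv.swap_apply_left, zero_add]
          by_cases h2 : l = j
          · subst h2; rw [Pi.single_eq_same]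
          · rw [Pi.single_eq_of_ne (Ne.symm h2)]
            rcases hl' with h | h
            · exact absurd h h2
            · exact h.symm
        · rw [Function.update_of_ne h1]
          by_cases h2 : j = l
          · subst h2
            rw [Pi.single_eq_same, Equiv.swap_apply_right]
            rcases hl' with h | h
            · exact absurd h h1
            · rw [h, zero_add]
          · rw [Pi.single_eq_of_ne h2, add_zero, Equiv.swap_apply_of_ne_of_ne h1 h2]
      rw [hfun, EE_perm]
    have hB : ∑ l ∈ Finset.univ.filter (fun l => ¬ (l = j0 ∨ α l = 0)), EE K (αl l) ∈ IJ K κ (one' J) := by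
      apply Ideal.sum_mem
      intro l hl
      have hl' := (Finset.mem_filter.1 hl).2
      push Not at hl'
      obtain ⟨hl1, hl2⟩ := hl'
      have hsupp : Finset.univ.filter (fun j => αl l j ≠ 0) =
          (Finset.univ.filter (fun j => α j ≠ 0)).erase j0 := by
        ext j
        rw [Finset.mem_erase, Finset.mem_filter, Finset.mem_filter]
        simp only [αl, Finset.mem_univ, true_and]
        by_cases h1 : j = j0
        · subst h1
          rw [Function.update_self, Pi.single_eq_of_ne (Ne.symm hl1)]
          simp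
        · rw [Function.update_of_ne h1]
          by_cases h2 : j = l
          · subst h2
            rw [Pi.single_eq_same]
            constructor
            · intro _; exact ⟨h1, hl2⟩
            · intro _ h
              exact hl2 (by
                have := add_eq_zero.1 h
                exact this.1)
          · rw [Pi.single_eq_of_ne h2, add_zero]
            simp [h1]
      have hcard : (Finset.univ.filter (fun j => αl l j ≠ 0)).card = r := by
        have hj0m : j0 ∈ Finset.univ.filter (fun j => α j ≠ 0) :=
          Finset.mem_filter.2 ⟨Finset.mem_univ _, hj0⟩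
        rw [hsupp, Finset.card_erase_of_mem hj0m, hα]
        rfl
      have hpos : 0 < r := by
        rw [← hcard, Finset.card_pos]
        refine ⟨l, ?_⟩
        rw [hsupp]
        exact Finset.mem_erase.2 ⟨hl1, Finset.mem_filter.2 ⟨Finset.mem_univ _, hl2⟩⟩
      obtain ⟨r', rfl⟩ : ∃ r', r = r' + 1 := ⟨r - 1, by omega⟩
      exact ih r' (by omega) (αl l) hcard
    have hfin : ((Finset.univ.filter (fun l => l = j0 ∨ α l = 0)).card : RJ K κ J) * EE K α
        ∈ IJ K κ (one' J) := by
      rw [← hA]
      have : ∑ l ∈ Finset.univ.filter (fun l => l = j0 ∨ α l = 0), EE K (αl l) =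
          ∑ l, EE K (αl l) - ∑ l ∈ Finset.univ.filter (fun l => ¬ (l = j0 ∨ α l = 0)), EE K (αl l) := by
        rw [← hsplit]; ring
      rw [this]
      exact Ideal.sub_mem _ hmem hB
    apply mem_of_cast_mul (n := (Finset.univ.filter (fun l => l = j0 ∨ α l = 0)).card) _ hfin
    have : j0 ∈ Finset.univ.filter (fun l => l = j0 ∨ α l = 0) := by simp
    exact (Finset.card_pos.2 ⟨j0, this⟩).ne'

lemma EE_mem' (α : J → (κ →₀ ℕ)) (h : α ≠ 0) : EE K α ∈ IJ K κ (one' J) := by
  classical
  obtain ⟨j, hj⟩ : ∃ j, α j ≠ 0 := by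
    by_contra hc; push Not at hc; exact h (funext hc)
  have hpos : 0 < (Finset.univ.filter (fun j => α j ≠ 0)).card :=
    Finset.card_pos.2 ⟨j, by simp [hj]⟩
  exact EE_mem ((Finset.univ.filter (fun j => α j ≠ 0)).card - 1) α (by omega)

/-- action of permutations of the points -/
abbrev act (K κ : Type) [Field K] {J : Type} (σ : Equiv.Perm J) : RJ K κ J →ₐ[K] RJ K κ J :=
  rename (fun x : κ × J => (x.1, σ x.2))

lemma act_mon (σ : Equiv.Perm J) (j : J) (f : κ →₀ ℕ) :
    act K κ σ (mon (xx j) f) = mon (xx (σ j)) f := by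
  have h := map_mon (act K κ σ : RJ K κ J →+* RJ K κ J) (xx j) f
  refine h.trans ?_
  congr 1
  funext a
  show act K κ σ (X (a, j)) = _
  rw [rename_X]

lemma act_PJ (σ : Equiv.Perm J) (f : Idx κ) :
    act K κ σ (PJ (one' J) f) = PJ (one' J) f := by
  unfold PJ pw
  rw [map_sum, ← Equiv.sum_comp σ (fun j => ((one' J j : ℕ) : RJ K κ J) * mon (xx j) f.1)]
  apply Finset.sum_congr rfl
  intro j _
  rw [map_mul, act_mon, map_natCast]

variable [Finite κ]

/-- exponent of the `j`-th point -/
def expo (s : κ × J →₀ ℕ) (j : J) : κ →₀ ℕ := Finsupp.equivFunOnFinite.symm (fun a => s (a, j))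

lemma monomial_eq_prod (s : κ × J →₀ ℕ) (r : K) :
    (monomial s r : RJ K κ J) = C r * ∏ j, mon (xx j) (expo s j) := by
  classical
  have := Fintype.ofFinite κ
  rw [monomial_eq]
  congr 1
  rw [Finsupp.prod_fintype _ _ (by simp), Fintype.prod_prod_type_right]
  apply Finset.prod_congr rfl
  intro j _
  unfold mon
  rw [Finsupp.prod_fintype _ _ (by simp)]
  rfl

lemma sum_act_monomial (s : κ × J →₀ ℕ) (r : K) :
    ∑ σ : Equiv.Perm J, act K κ σ (monomial s r) = C r * EE K (expo s) := by
  unfold EE
  rw [Finset.mul_sum]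
  apply Finset.sum_congr rfl
  intro σ _
  rw [monomial_eq_prod, map_mul, map_prod]
  simp only [act_mon]
  congr 1
  exact rename_C _ _

theorem inv_mem (p : RJ K κ J) (hp : ∀ σ : Equiv.Perm J, act K κ σ p = p) (h0 : coeff 0 p = 0) :
    p ∈ IJ K κ (one' J) := by
  classical
  have h1 : (Fintype.card (Equiv.Perm J) : RJ K κ J) * p = ∑ σ : Equiv.Perm J, act K κ σ p := by
    simp only [hp]
    rw [Finset.sum_const, nsmul_eq_mul, Finset.card_univ]
  apply mem_of_cast_mul (n := Fintype.card (Equiv.Perm J)) Fintype.card_ne_zero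
  rw [h1]
  have h2 : ∑ σ : Equiv.Perm J, act K κ σ p =
      ∑ s ∈ p.support, C (coeff s p) * EE K (expo s) := by
    conv_lhs => rw [p.as_sum]
    simp only [map_sum]
    rw [Finset.sum_comm]
    apply Finset.sum_congr rfl
    intro s _
    exact sum_act_monomial s _
  rw [h2]
  apply Ideal.sum_mem
  intro s hs
  apply Ideal.mul_mem_left
  apply EE_mem'
  intro hz
  have hs0 : s = 0 := by
    ext ⟨a, j⟩
    have := congrFun hz j
    have h3 := DFunLike.congr_fun this a
    simpa [expo] using h3
  rw [mem_support_iff, hs0] at hs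
  exact hs h0

end

end Pool.Agent.H901R3
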