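import Pool.Agent.H901R3.Coinv6

set_option autoImplicit false
set_option linter.unusedSectionVars false

open MvPolynomial

namespace Pool.Agent.H901R3

noncomputable section

variable {K : Type} [Field K] [CharZero K] {κ J : Type} [Fintype κ] [DecidableEq κ]
  [Fintype J] [DecidableEq J]

/-- the multigrading -/
abbrev wv (κ J : Type) [DecidableEq κ] : κ × J → (κ → ℕ) := fun x => Pi.single x.1 1

lemma mon_md (j : J) (f : κ →₀ ℕ) : IsWeightedHomogeneous (wv κ J) (mon (xx (K := K) j) f) (⇑f) := by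
  unfold mon
  have h := IsWeightedHomogeneous.prod (w := wv κ J) f.support
    (fun a => (xx (K := K) (κ := κ) j a) ^ f a) (fun a => f a • Pi.single a 1) (by
      intro a _
      exact (isWeightedHomogeneous_X K (wv κ J) (a, j)).pow (f a))
  have h2 : ∑ a ∈ f.support, f a • (Pi.single a 1 : κ → ℕ) = ⇑f := by
    funext b
    rw [Finset.sum_apply]
    rw [Finset.sum_eq_single b]
    · simp
    · intro c _ hc
      rw [Pi.smul_apply, Pi.single_eq_of_ne (Ne.symm hc), smul_zero]
    · intro hb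
      rw [Finsupp.notMem_support_iff.1 hb]; simp
  rw [h2] at h
  exact h

lemma PJ_md (f : Idx κ) : IsWeightedHomogeneous (wv κ J) (PJ (K := K) (one' J) f) (⇑f.1) := by
  unfold PJ pw
  apply IsWeightedHomogeneous.sum
  intro j _
  have := (mon_md (K := K) j f.1).C_mul ((one' J j : ℕ) : K)
  rwa [map_natCast] at this

lemma sum_weight (s : κ × J →₀ ℕ) : ∑ i, (Finsupp.weight (wv κ J) s) i = Finsupp.degree s := by
  rw [Finsupp.weight_apply, Finsupp.sum, Finsupp.degree_apply]
  simp only [Finset.sum_apply]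
  rw [Finset.sum_comm]
  apply Finset.sum_congr rfl
  rintro ⟨a, j⟩ _
  simp only [Pi.smul_apply, smul_eq_mul, wv]
  rw [← Finset.mul_sum]
  simp

lemma md_homog {v : RJ K κ J} {e : κ → ℕ} (hv : IsWeightedHomogeneous (wv κ J) v e) :
    v.IsHomogeneous (∑ i, e i) := by
  intro s hs
  have h1 := hv hs
  rw [← h1, sum_weight]
  exact (DFunLike.congr_fun Finsupp.degree_eq_weight_one s).symm

lemma act_md (σ : Equiv.Perm J) {v : RJ K κ J} {e : κ → ℕ}
    (hv : IsWeightedHomogeneous (wv κ J) v e) : IsWeightedHomogeneous (wv κ J) (act K κ σ v) e := by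
  rw [v.as_sum, map_sum]
  apply IsWeightedHomogeneous.sum
  intro s hs
  have h1 := hv (mem_support_iff.1 hs)
  rw [rename_monomial]
  apply isWeightedHomogeneous_monomial
  rw [← h1, Finsupp.weight_apply, Finsupp.weight_apply, Finsupp.sum_mapDomain_index]
  · simp
  · intro b m₁ m₂; rw [add_smul]

/-- invariants of multidegree `b` -/
def VV (K : Type) [Field K] (H : Subgroup (Equiv.Perm J)) (b : κ → ℕ) :
    Submodule K (RJ K κ J) where
  carrier := {v | IsWeightedHomogeneous (wv κ J) v b ∧ ∀ σ ∈ H, act K κ σ v = v}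
  zero_mem' := ⟨isWeightedHomogeneous_zero _ _ _, fun _ _ => map_zero _⟩
  add_mem' := by
    rintro v w ⟨a1, a2⟩ ⟨b1, b2⟩
    exact ⟨a1.add b1, fun σ hσ => by rw [map_add, a2 σ hσ, b2 σ hσ]⟩
  smul_mem' := by
    rintro c v ⟨a1, a2⟩
    refine ⟨?_, fun σ hσ => by rw [map_smul, a2 σ hσ]⟩
    rw [smul_eq_C_mul]; exact a1.C_mul c

lemma mem_VV {H : Subgroup (Equiv.Perm J)} {b : κ → ℕ} {v : RJ K κ J} :
    v ∈ VV K H b ↔ IsWeightedHomogeneous (wv κ J) v b ∧ ∀ σ ∈ H, act K κ σ v = v := Iff.rfl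

/-- the part in the ideal -/
def VI (K : Type) [Field K] (H : Subgroup (Equiv.Perm J)) (b : κ → ℕ) :
    Submodule K (RJ K κ J) :=
  VV K H b ⊓ Submodule.restrictScalars K (IJ K κ (one' J))

instance finVV (H : Subgroup (Equiv.Perm J)) (b : κ → ℕ) : FiniteDimensional K (VV (κ := κ) K H b) := by
  have h1 : VV K H b ≤ homogeneousSubmodule (κ × J) K (∑ i, b i) := by
    intro v hv; exact md_homog hv.1
  have h2 : Module.Finite K (homogeneousSubmodule (κ × J) K (∑ i, b i)) :=
    Module.Finite.iff_fg.2 (homogeneousSubmodule_fg (κ × J) K _)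
  exact Submodule.finiteDimensional_of_le h1

lemma exists_W (H : Subgroup (Equiv.Perm J)) (b : κ → ℕ) :
    ∃ W : Submodule K (RJ K κ J), W ≤ VV K H b ∧ (∀ w ∈ W, w ∈ VI K H b → w = 0) ∧
      (∀ v ∈ VV K H b, ∃ w ∈ W, ∃ u ∈ VI K H b, v = w + u) ∧
      Module.finrank K W + Module.finrank K (VI (κ := κ) K H b) = Module.finrank K (VV (κ := κ) K H b) := by
  obtain ⟨Q, hQ⟩ := Submodule.exists_isCompl ((VI (κ := κ) K H b).comap (VV K H b).subtype)
  refine ⟨Q.map (VV K H b).subtype, ?_, ?_, ?_, ?_⟩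
  · rintro _ ⟨q, _, rfl⟩; exact q.2
  · rintro _ ⟨q, hq, rfl⟩ hw
    have : q ∈ ((VI (κ := κ) K H b).comap (VV K H b).subtype) ⊓ Q := ⟨hw, hq⟩
    rw [hQ.inf_eq_bot] at this
    rw [(Submodule.mem_bot K).1 this, map_zero]
  · intro v hv
    have : (⟨v, hv⟩ : VV K H b) ∈ ((VI (κ := κ) K H b).comap (VV K H b).subtype) ⊔ Q := by
      rw [hQ.sup_eq_top]; trivial
    obtain ⟨u, hu, q, hq, huq⟩ := Submodule.mem_sup.1 this
    refine ⟨q, ⟨q, hq, rfl⟩, u, hu, ?_⟩
    have := congrArg Subtype.val huq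
    rw [← show (u : RJ K κ J) + q = v from this, add_comm]
  · have h1 := Submodule.finrank_add_eq_of_isCompl hQ
    have h2 : Module.finrank K (Q.map (VV K H b).subtype) = Module.finrank K Q :=
      (Submodule.equivMapOfInjective _ (Submodule.injective_subtype _) Q).symm.finrank_eq
    have h3 : Module.finrank K ((VI (κ := κ) K H b).comap (VV K H b).subtype) =
        Module.finrank K (VI (κ := κ) K H b) :=
      (Submodule.comapSubtypeEquivOfLe (inf_le_left)).finrank_eq
    rw [h2, ← h3, add_comm]; exact h1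

/-- multidegree of a product of generators -/
def mw : (Idx κ →₀ ℕ) →+ (κ → ℕ) := Finsupp.weight (fun f : Idx κ => (⇑f.1 : κ → ℕ))

lemma mw_single (f : Idx κ) (n : ℕ) : mw (Finsupp.single f n) = n • ⇑f.1 := by
  simp [mw, Finsupp.weight_apply, Finsupp.sum_single_index]

lemma sum_mw (β : Idx κ →₀ ℕ) : ∑ i, mw β i = wt β := by
  rw [mw, wt, Finsupp.weight_apply, Finsupp.weight_apply, Finsupp.sum, Finsupp.sum]
  simp only [Finset.sum_apply]
  rw [Finset.sum_comm]
  apply Finset.sum_congr rfl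
  intro f _
  simp only [Pi.smul_apply, smul_eq_mul]
  rw [← Finset.mul_sum, Finsupp.degree_eq_sum]

/-- products of generators -/
def PP (K : Type) [Field K] (J : Type) [Fintype J] (β : Idx κ →₀ ℕ) : RJ K κ J :=
  β.prod (fun f n => PJ (one' J) f ^ n)

lemma PP_add (β γ : Idx κ →₀ ℕ) : PP K J (β + γ) = PP K J β * PP K J γ := by
  unfold PP
  rw [Finsupp.prod_add_index' (by simp) (by intros; rw [pow_add])]

lemma PP_single (f : Idx κ) : PP K J (Finsupp.single f 1) = PJ (one' J) f := by
  unfold PP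
  rw [Finsupp.prod_single_index (by simp), pow_one]

lemma PP_zero : PP K J (0 : Idx κ →₀ ℕ) = 1 := by simp [PP]

lemma PP_md (β : Idx κ →₀ ℕ) : IsWeightedHomogeneous (wv κ J) (PP K J β) (mw β) := by
  unfold PP
  have h := IsWeightedHomogeneous.prod (w := wv κ J) β.support
    (fun f => (PJ (K := K) (one' J) f) ^ β f) (fun f => β f • ⇑f.1) (by
      intro f _
      exact (PJ_md f).pow (β f))
  exact h

lemma act_PP (σ : Equiv.Perm J) (β : Idx κ →₀ ℕ) : act K κ σ (PP K J β) = PP K J β := by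
  unfold PP
  rw [Finsupp.prod, map_prod]
  simp only [map_pow, act_PJ]

lemma fin_mw (a : κ → ℕ) : {β : Idx κ →₀ ℕ | mw β ≤ a}.Finite := by
  classical
  have hS : {f : Idx κ | (⇑f.1 : κ → ℕ) ≤ a}.Finite := by
    have h1 : {g : κ →₀ ℕ | (⇑g : κ → ℕ) ≤ a}.Finite := by
      have h2 : (Set.Iic a).Finite := Set.finite_Iic a
      exact Set.Finite.preimage (fun _ _ _ _ h => DFunLike.coe_injective h) h2
    exact Set.Finite.preimage (fun _ _ _ _ h => Subtype.ext h) h1
  apply Set.Finite.subset (Finset.finite_toSet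
    (hS.toFinset.finsupp (fun _ => Finset.range (∑ i, a i + 1))))
  intro β hβ
  rw [Finset.mem_coe, Finset.mem_finsupp_iff]
  have hf : ∀ f, β f • (⇑f.1 : κ → ℕ) ≤ mw β := by
    intro f
    by_cases h : f ∈ β.support
    · rw [mw, Finsupp.weight_apply, Finsupp.sum]
      exact Finset.single_le_sum (f := fun f => β f • (⇑f.1 : κ → ℕ)) (fun _ _ => zero_le) h
    · rw [Finsupp.notMem_support_iff.1 h, zero_smul]; exact zero_le
  have hle : ∀ f, β f ≤ ∑ i, a i := by
    intro f
    have h1 : Finsupp.degree β ≤ wt β := degree_le_wt β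
    have h2 : wt β ≤ ∑ i, a i := by
      rw [← sum_mw]; exact Finset.sum_le_sum (fun i _ => hβ i)
    have h3 : β f ≤ Finsupp.degree β := by
      by_cases h : f ∈ β.support
      · rw [Finsupp.degree_apply]
        exact Finset.single_le_sum (f := fun f => β f) (fun _ _ => zero_le) h
      · rw [Finsupp.notMem_support_iff.1 h]; exact Nat.zero_le _
    omega
  constructor
  · intro f hfs
    rw [Set.Finite.mem_toFinset]
    have h1 : β f ≠ 0 := Finsupp.mem_support_iff.1 hfs
    intro i
    have h2 := (hf f i).trans (hβ i)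
    simp only [Pi.smul_apply, smul_eq_mul] at h2
    have h3 : 0 < β f := Nat.pos_of_ne_zero h1
    exact le_trans (Nat.le_mul_of_pos_left _ h3) h2
  · intro f _
    rw [Finset.mem_range]
    have := hle f
    omega

/-- finite set of multi-indices of multidegree at most `a` -/
def BB (a : κ → ℕ) : Finset (Idx κ →₀ ℕ) := (fin_mw a).toFinset

lemma mem_BB {a : κ → ℕ} {β : Idx κ →₀ ℕ} : β ∈ BB a ↔ mw β ≤ a := by
  unfold BB; rw [Set.Finite.mem_toFinset]; rfl

section WW

variable (H : Subgroup (Equiv.Perm J)) (W : (κ → ℕ) → Submodule K (RJ K κ J))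
  (hW1 : ∀ b, W b ≤ VV K H b) (hW2 : ∀ b, ∀ w ∈ W b, w ∈ VI K H b → w = 0)
  (hW3 : ∀ b, ∀ v ∈ VV K H b, ∃ w ∈ W b, ∃ u ∈ VI K H b, v = w + u)

def Sp (W : (κ → ℕ) → Submodule K (RJ K κ J)) (a : κ → ℕ) : Submodule K (RJ K κ J) :=
  Submodule.span K {u | ∃ β a', a' + mw β = a ∧ ∃ w ∈ W a', u = w * PP K J β}

lemma Sp_mul {a e : κ → ℕ} {f : Idx κ} (h : e + ⇑f.1 = a) {v : RJ K κ J} (hv : v ∈ Sp W e) :
    v * PJ (one' J) f ∈ Sp W a := by
  unfold Sp at hv
  induction hv using Submodule.span_induction with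
  | mem x hx =>
    obtain ⟨β, a', h1, w, hw, rfl⟩ := hx
    apply Submodule.subset_span
    refine ⟨β + Finsupp.single f 1, a', ?_, w, hw, ?_⟩
    · rw [map_add, mw_single, one_smul, ← add_assoc, h1, h]
    · rw [PP_add, PP_single, mul_assoc]
  | zero => rw [zero_mul]; exact Submodule.zero_mem _
  | add x y _ _ hx hy => rw [add_mul]; exact Submodule.add_mem _ hx hy
  | smul c x _ hx => rw [smul_mul_assoc]; exact Submodule.smul_mem _ c hx

include hW3 in
lemma surj (N : ℕ) : ∀ a : κ → ℕ, ∑ i, a i = N → VV K H a ≤ Sp W a := by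
  classical
  induction N using Nat.strong_induction_on with
  | _ N ih =>
    intro a ha v hv
    obtain ⟨w, hw, u, hu, rfl⟩ := hW3 a v hv
    apply Submodule.add_mem
    · apply Submodule.subset_span
      exact ⟨0, a, by rw [map_zero, add_zero], w, hw, by rw [PP_zero, mul_one]⟩
    · have huV : u ∈ VV K H a := hu.1
      have huI : u ∈ IJ K κ (one' J) := hu.2
      obtain ⟨s, c, hc1, hc2⟩ := ideal_homog (wv κ J) (PJ (K := K) (one' J)) (fun f => ⇑f.1)
        (fun f => PJ_md f) huI huV.1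
      let _ : Fintype H := Fintype.ofFinite H
      have h1 : (Fintype.card H : K) • u = ∑ f ∈ s, (∑ σ : H, act K κ σ.1 (c f)) * PJ (one' J) f := by
        have h2 : ∑ σ : H, act K κ σ.1 u = (Fintype.card H : K) • u := by
          rw [Finset.sum_congr rfl (fun (σ : H) _ => huV.2 σ.1 σ.2), Finset.sum_const,
            Finset.card_univ, Nat.cast_smul_eq_nsmul]
        rw [← h2]
        have h3 : ∀ σ : H, act K κ σ.1 u = ∑ f ∈ s, act K κ σ.1 (c f) * PJ (one' J) f := by
          intro σ
          conv_lhs => rw [hc1]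
          rw [map_sum]
          apply Finset.sum_congr rfl
          intro f _
          rw [map_mul, act_PJ]
        rw [Finset.sum_congr rfl (fun (σ : H) _ => h3 σ), Finset.sum_comm]
        apply Finset.sum_congr rfl
        intro f _
        rw [Finset.sum_mul]
      have h4 : (Fintype.card H : K) • u ∈ Sp W a := by
        rw [h1]
        apply Submodule.sum_mem
        intro f hf
        obtain ⟨e', he', hce⟩ := hc2 f hf
        apply Sp_mul W he'
        have hsum : ∑ i, e' i < N := by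
          have h5 : ∑ i, a i = ∑ i, e' i + ∑ i, f.1 i := by
            rw [← Finset.sum_add_distrib, ← he']; rfl
          have h6 := idx_degree_pos f
          rw [Finsupp.degree_eq_sum] at h6
          omega
        apply ih _ hsum e' rfl
        refine ⟨IsWeightedHomogeneous.sum _ _ _ (fun σ _ => act_md σ.1 hce), ?_⟩
        intro τ hτ
        rw [map_sum]
        have h7 : ∀ σ : H, act K κ τ (act K κ σ.1 (c f)) = act K κ ((⟨τ, hτ⟩ * σ : H)).1 (c f) := by
          intro σ
          rw [rename_rename]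
          rfl
        rw [Finset.sum_congr rfl (fun σ _ => h7 σ)]
        exact Equiv.sum_comp (Equiv.mulLeft (⟨τ, hτ⟩ : H)) (fun σ : H => act K κ σ.1 (c f))
      have hne : (Fintype.card H : K) ≠ 0 := Nat.cast_ne_zero.2 Fintype.card_ne_zero
      have h8 := Submodule.smul_mem _ ((Fintype.card H : K)⁻¹) h4
      rwa [smul_smul, inv_mul_cancel₀ hne, one_smul] at h8

end WW

end

end Pool.Agent.H901R3
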