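import Pool.Agent.H901R3.Coinv7

set_option autoImplicit false
set_option linter.unusedSectionVars false

open MvPolynomial

namespace Pool.Agent.H901R3

noncomputable section

variable {K : Type} [Field K] [CharZero K] {κ J : Type} [Fintype κ] [DecidableEq κ]
  [Fintype J] [DecidableEq J]

lemma gf_of_W {a : κ → ℕ} {w : RJ K κ J} {β : Idx κ →₀ ℕ} {a' : κ → ℕ}
    (h : a' + mw β = a) (hw : IsWeightedHomogeneous (wv κ J) w a') :
    monomial β w ∈ GF (Finsupp.degree β) (Hom K κ J) (∑ i, a i) := by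
  apply monomial_mem_GF rfl (e' := ∑ i, a' i)
  · rw [← sum_mw, ← Finset.sum_add_distrib, ← h]; rfl
  · exact md_homog hw

lemma eval_monomial_PP (β : Idx κ →₀ ℕ) (w : RJ K κ J) :
    eval (PJ (one' J)) (monomial β w) = w * PP K J β := by
  rw [eval_monomial]; rfl

/-- lowering a sum of terms of high degree -/
lemma lower_sum {a : κ → ℕ} (k : ℕ) (w : (Idx κ →₀ ℕ) → RJ K κ J)
    (s : Finset (Idx κ →₀ ℕ)) (hs : ∀ β ∈ s, k < Finsupp.degree β ∧
      ∃ a', a' + mw β = a ∧ IsWeightedHomogeneous (wv κ J) (w β) a') :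
    ∃ G ∈ GF k (Hom K κ J) (∑ i, a i),
      eval (PJ (one' J)) G = ∑ β ∈ s, w β * PP K J β ∧ ∀ β, coeff β G ∈ IJ K κ (one' J) := by
  classical
  induction s using Finset.induction_on with
  | empty => exact ⟨0, Submodule.zero_mem _, by simp, by simp⟩
  | insert β s hβ ih =>
    obtain ⟨G, h1, h2, h3⟩ := ih (fun γ hγ => hs γ (Finset.mem_insert_of_mem hγ))
    obtain ⟨h4, a', h5, h6⟩ := hs β (Finset.mem_insert_self β s)
    obtain ⟨G', g1, g2, g3⟩ := Rep.lowerTo (p := PJ (K := K) (one' J)) h4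
      (fun f d v hv => mul_PJ_mem (one' J) f d v hv) (gf_of_W h5 h6)
    refine ⟨G' + G, Submodule.add_mem _ g1 h1, ?_, ?_⟩
    · rw [map_add, g2, h2, eval_monomial_PP, Finset.sum_insert hβ]
    · intro γ; rw [coeff_add]; exact Ideal.add_mem _ (g3 γ) (h3 γ)

theorem indep {a : κ → ℕ} (ha : ∑ i, a i ≤ Fintype.card J)
    (w : (Idx κ →₀ ℕ) → RJ K κ J) (s : Finset (Idx κ →₀ ℕ))
    (hs : ∀ β ∈ s, ∃ a', a' + mw β = a ∧ IsWeightedHomogeneous (wv κ J) (w β) a')
    (hI : ∀ β ∈ s, w β ∈ IJ K κ (one' J) → w β = 0)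
    (h0 : ∑ β ∈ s, w β * PP K J β = 0) : ∀ β ∈ s, w β = 0 := by
  classical
  by_contra hc
  push Not at hc
  obtain ⟨β₁, hβ₁, hne₁⟩ := hc
  -- minimal degree
  have hex : ∃ k, ∃ β ∈ s, w β ≠ 0 ∧ Finsupp.degree β = k := ⟨_, β₁, hβ₁, hne₁, rfl⟩
  obtain ⟨β₀, hβ₀, hne₀, hdeg₀⟩ := Nat.find_spec hex
  set k := Nat.find hex with hk
  have hmin : ∀ β ∈ s, Finsupp.degree β < k → w β = 0 := by
    intro β hβ hlt
    by_contra hne
    exact Nat.find_min hex hlt ⟨β, hβ, hne, rfl⟩
  obtain ⟨G, h1, h2, h3⟩ := lower_sum (a := a) k w (s.filter (fun β => k < Finsupp.degree β)) (by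
    intro β hβ
    rw [Finset.mem_filter] at hβ
    exact ⟨hβ.2, hs β hβ.1⟩)
  set F : MvPolynomial (Idx κ) (RJ K κ J) :=
    ∑ β ∈ s.filter (fun β => Finsupp.degree β = k), monomial β (w β) with hF
  have hFm : F ∈ GF k (Hom K κ J) (∑ i, a i) := by
    apply Submodule.sum_mem
    intro β hβ
    rw [Finset.mem_filter] at hβ
    obtain ⟨a', h5, h6⟩ := hs β hβ.1
    have := gf_of_W h5 h6
    rwa [hβ.2] at this
  have hev : eval (PJ (one' J)) (F + G) = 0 := by
    rw [map_add, h2, hF, map_sum]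
    simp only [eval_monomial_PP]
    rw [← h0]
    rw [← Finset.sum_filter_add_sum_filter_not s (fun β => Finsupp.degree β = k)
      (fun β => w β * PP K J β)]
    congr 1
    rw [← Finset.sum_filter_add_sum_filter_not (s.filter (fun β => ¬ Finsupp.degree β = k))
      (fun β => k < Finsupp.degree β) (fun β => w β * PP K J β)]
    have h7 : ∑ x ∈ (s.filter (fun β => ¬ Finsupp.degree β = k)).filter
        (fun β => ¬ k < Finsupp.degree β), w x * PP K J x = 0 := by
      apply Finset.sum_eq_zero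
      intro β hβ
      rw [Finset.mem_filter, Finset.mem_filter] at hβ
      rw [hmin β hβ.1.1 (by omega), zero_mul]
    rw [h7, add_zero]
    apply Finset.sum_congr _ (fun _ _ => rfl)
    ext β
    simp only [Finset.mem_filter]
    constructor
    · rintro ⟨a1, a2⟩; exact ⟨⟨a1, by omega⟩, a2⟩
    · rintro ⟨⟨a1, _⟩, a2⟩; exact ⟨a1, a2⟩
  have hQ := QR_all K κ (Fintype.card J) J (one' J) (fun _ => one_pos) rfl (∑ i, a i) ha k (F + G)
    (Submodule.add_mem _ hFm h1) hev β₀
  rw [coeff_add] at hQ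
  have hcoeff : coeff β₀ F = w β₀ := by
    rw [hF, coeff_sum, Finset.sum_eq_single β₀]
    · rw [coeff_monomial, if_pos rfl]
    · intro γ _ hγ
      rw [coeff_monomial, if_neg hγ]
    · intro h
      exact absurd (Finset.mem_filter.2 ⟨hβ₀, hdeg₀⟩) h
  rw [hcoeff] at hQ
  have h8 : w β₀ ∈ IJ K κ (one' J) := by
    have := Ideal.sub_mem _ hQ (h3 β₀)
    simpa using this
  exact hne₀ (hI β₀ hβ₀ h8)

section WW

variable (H : Subgroup (Equiv.Perm J)) (W : (κ → ℕ) → Submodule K (RJ K κ J))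
  (hW1 : ∀ b, W b ≤ VV K H b) (hW2 : ∀ b, ∀ w ∈ W b, w ∈ VI K H b → w = 0)
  (hW3 : ∀ b, ∀ v ∈ VV K H b, ∃ w ∈ W b, ∃ u ∈ VI K H b, v = w + u)

/-- the parametrisation map -/
def Phi (a : κ → ℕ) : (∀ β : BB a, W (a - mw β.1)) →ₗ[K] RJ K κ J :=
  ∑ β : BB a, (LinearMap.mulRight K (PP K J β.1)) ∘ₗ (W (a - mw β.1)).subtype ∘ₗ LinearMap.proj β

lemma Phi_apply (a : κ → ℕ) (x : ∀ β : BB a, W (a - mw β.1)) :
    Phi W a x = ∑ β : BB a, (x β : RJ K κ J) * PP K J β.1 := by
  simp [Phi, LinearMap.sum_apply]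

include hW1 hW2 in
lemma Phi_inj (a : κ → ℕ) (ha : ∑ i, a i ≤ Fintype.card J) : Function.Injective (Phi W a) := by
  classical
  rw [injective_iff_map_eq_zero]
  intro x hx
  rw [Phi_apply] at hx
  let w : (Idx κ →₀ ℕ) → RJ K κ J := fun β => if h : β ∈ BB a then (x ⟨β, h⟩ : RJ K κ J) else 0
  have hw : ∀ β : BB a, w β.1 = x β := by
    intro β
    simp [w]
  have hsum : ∑ β ∈ BB a, w β * PP K J β = 0 := by
    rw [← Finset.sum_coe_sort (BB a) (fun β => w β * PP K J β), ← hx]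
    apply Finset.sum_congr rfl
    intro β _
    rw [hw]
  have := indep ha w (BB a) (by
    intro β hβ
    refine ⟨a - mw β, tsub_add_cancel_of_le (mem_BB.1 hβ), ?_⟩
    have h1 := hw ⟨β, hβ⟩
    simp only at h1
    rw [h1]
    exact (hW1 _ (x ⟨β, hβ⟩).2).1) (by
    intro β hβ hI
    have h1 := hw ⟨β, hβ⟩
    simp only at h1
    rw [h1] at hI ⊢
    exact hW2 _ _ (x ⟨β, hβ⟩).2 ⟨hW1 _ (x ⟨β, hβ⟩).2, hI⟩) hsum
  funext β
  have h1 := this β.1 β.2
  rw [hw] at h1
  exact Subtype.ext h1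

include hW1 hW3 in
lemma Phi_range (a : κ → ℕ) : LinearMap.range (Phi W a) = VV K H a := by
  classical
  apply le_antisymm
  · rintro _ ⟨x, rfl⟩
    rw [Phi_apply]
    apply Submodule.sum_mem
    intro β _
    have h1 := hW1 _ (x β).2
    refine ⟨?_, ?_⟩
    · have := h1.1.mul (PP_md β.1)
      rwa [tsub_add_cancel_of_le (mem_BB.1 β.2)] at this
    · intro σ hσ
      rw [map_mul, h1.2 σ hσ, act_PP]
  · refine (surj H W hW3 _ a rfl).trans ?_
    unfold Sp
    rw [Submodule.span_le]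
    rintro _ ⟨β, a', h1, w, hw, rfl⟩
    have hβ : β ∈ BB a := mem_BB.2 (by rw [← h1]; exact le_add_self)
    have ha' : a - mw β = a' := by rw [← h1]; exact add_tsub_cancel_right _ _
    refine ⟨Pi.single ⟨β, hβ⟩ ⟨w, by rw [ha']; exact hw⟩, ?_⟩
    rw [Phi_apply, Finset.sum_eq_single ⟨β, hβ⟩]
    · rw [Pi.single_eq_same]
    · intro γ _ hγ
      rw [Pi.single_eq_of_ne hγ]; simp
    · intro h; exact absurd (Finset.mem_univ _) h

include hW1 hW2 hW3 in
theorem finrank_V (a : κ → ℕ) (ha : ∑ i, a i ≤ Fintype.card J) :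
    Module.finrank K (VV (κ := κ) K H a) = ∑ β ∈ BB a, Module.finrank K (W (a - mw β)) := by
  have hfin : ∀ b, FiniteDimensional K (W b) := fun b => Submodule.finiteDimensional_of_le (hW1 b)
  rw [← Phi_range H W hW1 hW3 a, LinearMap.finrank_range_of_inj (Phi_inj H W hW1 hW2 a ha),
    Module.finrank_pi_fintype, Finset.sum_coe_sort (BB a) (fun β => Module.finrank K (W (a - mw β)))]

end WW

lemma exists_WW (H : Subgroup (Equiv.Perm J)) :
    ∃ W : (κ → ℕ) → Submodule K (RJ K κ J), (∀ b, W b ≤ VV K H b) ∧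
      (∀ b, ∀ w ∈ W b, w ∈ VI K H b → w = 0) ∧
      (∀ b, ∀ v ∈ VV K H b, ∃ w ∈ W b, ∃ u ∈ VI K H b, v = w + u) ∧
      (∀ b, Module.finrank K (W b) + Module.finrank K (VI (κ := κ) K H b)
        = Module.finrank K (VV (κ := κ) K H b)) := by
  choose W h1 h2 h3 h4 using (fun b : κ → ℕ => exists_W (K := K) H b)
  exact ⟨W, h1, h2, h3, h4⟩

lemma coeff_zero_of_mem {v : RJ K κ J} (hv : v ∈ IJ K κ (one' J)) : coeff 0 v = 0 := by
  have h : IJ K κ (one' J) ≤ RingHom.ker (constantCoeff : RJ K κ J →+* K) := by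
    rw [Ideal.span_le]
    rintro _ ⟨f, rfl⟩
    show constantCoeff (PJ (one' J) f) = 0
    rw [constantCoeff_eq]
    apply (PJ_hom (one' J) f).coeff_eq_zero
    have := idx_degree_pos f
    simp; omega
  exact h hv

lemma VI_top {b : κ → ℕ} (hb : b ≠ 0) : VI (J := J) K ⊤ b = VV K ⊤ b := by
  apply le_antisymm inf_le_left
  intro v hv
  refine ⟨hv, ?_⟩
  apply inv_mem v (fun σ => hv.2 σ trivial)
  apply hv.1.coeff_eq_zero
  rw [map_zero]; exact Ne.symm hb

lemma VI_zero (H : Subgroup (Equiv.Perm J)) : VI (κ := κ) K H 0 = ⊥ := by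
  rw [Submodule.eq_bot_iff]
  rintro v ⟨hv, hI⟩
  have h1 : v.IsHomogeneous 0 := by
    have := md_homog hv.1
    simpa using this
  have h2 := (totalDegree_zero_iff_isHomogeneous _).2 h1
  rw [totalDegree_eq_zero_iff_eq_C] at h2
  rw [h2, coeff_zero_of_mem hI, C_0]

lemma finrank_VV_zero (H : Subgroup (Equiv.Perm J)) :
    Module.finrank K (VV (κ := κ) K H 0) = 1 := by
  have h : VV (κ := κ) K H 0 = Submodule.span K {(1 : RJ K κ J)} := by
    apply le_antisymm
    · intro v hv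
      have h1 : v.IsHomogeneous 0 := by
        have := md_homog hv.1
        simpa using this
      have h2 := (totalDegree_zero_iff_isHomogeneous _).2 h1
      rw [totalDegree_eq_zero_iff_eq_C] at h2
      rw [Submodule.mem_span_singleton]
      exact ⟨coeff 0 v, by rw [smul_eq_C_mul, mul_one]; exact h2.symm⟩
    · rw [Submodule.span_le, Set.singleton_subset_iff]
      exact ⟨isWeightedHomogeneous_one _ _, fun σ _ => map_one _⟩
  rw [h]
  exact finrank_span_singleton one_ne_zero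

/-- number of multi-indices of multidegree `c` -/
theorem finrank_top (c : κ → ℕ) (hc : ∑ i, c i ≤ Fintype.card J) :
    Module.finrank K (VV (J := J) K ⊤ c) = ((BB c).filter (fun β => mw β = c)).card := by
  classical
  obtain ⟨W, h1, h2, h3, h4⟩ := exists_WW (K := K) (κ := κ) (J := J) ⊤
  rw [finrank_V ⊤ W h1 h2 h3 c hc, Finset.card_filter]
  apply Finset.sum_congr rfl
  intro β hβ
  have hle := mem_BB.1 hβ
  by_cases h : mw β = c
  · rw [if_pos h, h, tsub_self]
    have h5 := h4 0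
    rw [VI_zero, finrank_VV_zero] at h5
    simpa using h5
  · rw [if_neg h]
    have hne : c - mw β ≠ 0 := by
      intro h0
      apply h
      exact le_antisymm hle (tsub_eq_zero_iff_le.1 h0)
    have h5 := h4 (c - mw β)
    rw [VI_top hne] at h5
    omega

/-- the dimension formula -/
theorem main_dim (H : Subgroup (Equiv.Perm J)) (a : κ → ℕ) (ha : ∑ i, a i ≤ Fintype.card J) :
    (Module.finrank K (VV (κ := κ) K H a) : ℤ) =
      ∑ b ∈ Finset.Iic a, ((Module.finrank K (VV (κ := κ) K H b) : ℤ)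
        - (Module.finrank K (VI (κ := κ) K H b) : ℤ)) *
        (Module.finrank K (VV (J := J) K ⊤ (a - b)) : ℤ) := by
  classical
  obtain ⟨W, h1, h2, h3, h4⟩ := exists_WW (K := K) (κ := κ) (J := J) H
  have h5 : ∀ b ∈ Finset.Iic a, ((Module.finrank K (VV (κ := κ) K H b) : ℤ)
        - (Module.finrank K (VI (κ := κ) K H b) : ℤ)) *
        (Module.finrank K (VV (J := J) K ⊤ (a - b)) : ℤ) =
        ∑ β ∈ BB a, if b + mw β = a then (Module.finrank K (W b) : ℤ) else 0 := by
    intro b hb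
    have hb' := Finset.mem_Iic.1 hb
    have hsum : ∑ i, (a - b) i ≤ Fintype.card J := by
      refine le_trans (Finset.sum_le_sum (fun i _ => ?_)) ha
      exact Nat.sub_le _ _
    rw [finrank_top (a - b) hsum, ← h4 b]
    push_cast
    rw [add_sub_cancel_right, ← Finset.sum_filter, Finset.sum_const, nsmul_eq_mul, mul_comm]
    congr 2
    congr 1
    ext β
    simp only [Finset.mem_filter, mem_BB]
    constructor
    · rintro ⟨g1, g2⟩
      refine ⟨g1.trans tsub_le_self, ?_⟩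
      rw [g2, add_tsub_cancel_of_le hb']
    · rintro ⟨g1, g2⟩
      have : mw β = a - b := by rw [← g2]; exact (add_tsub_cancel_left _ _).symm
      exact ⟨this.le, this⟩
  rw [Finset.sum_congr rfl h5, Finset.sum_comm, finrank_V H W h1 h2 h3 a ha]
  push_cast
  apply Finset.sum_congr rfl
  intro β hβ
  have hle := mem_BB.1 hβ
  rw [Finset.sum_eq_single (a - mw β)]
  · rw [if_pos (tsub_add_cancel_of_le hle)]
  · intro b _ hb
    rw [if_neg]
    intro h
    apply hb
    rw [← h]; exact (add_tsub_cancel_right _ _).symm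
  · intro h
    exact absurd (Finset.mem_Iic.2 tsub_le_self) h

end

end Pool.Agent.H901R3
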